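import Mathlib

/-!
# Labels, the involution on labels, and the number of invariant multisets of labels
-/

set_option autoImplicit false

namespace Pool.Agent.J4.H46.InvB

open Finset

/-- the involution on labels -/
def tau (x : ℕ × ℤ) : ℕ × ℤ := (x.2.natAbs, if 0 ≤ x.2 then (x.1 : ℤ) else -(x.1 : ℤ))

/-- the labels -/
noncomputable def Lam (r : ℕ) : Finset (ℕ × ℤ) :=
  ((range (r + 1)) ×ˢ (Icc (-(r : ℤ)) r)).filter (fun x => x.1 = 0 → 0 ≤ x.2)

theorem mem_Lam {r : ℕ} {x : ℕ × ℤ} :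
    x ∈ Lam r ↔ x.1 ≤ r ∧ x.2.natAbs ≤ r ∧ (x.1 = 0 → 0 ≤ x.2) := by
  unfold Lam
  rw [mem_filter, mem_product, mem_range, mem_Icc]
  constructor
  · rintro ⟨⟨h1, h2, h3⟩, h4⟩
    exact ⟨by omega, by omega, h4⟩
  · rintro ⟨h1, h2, h3⟩
    exact ⟨⟨by omega, by omega, by omega⟩, h3⟩

theorem tau_tau {x : ℕ × ℤ} (h : x.1 = 0 → 0 ≤ x.2) : tau (tau x) = x := by
  obtain ⟨a, b⟩ := x
  simp only at h
  unfold tau
  simp only
  split_ifs <;> simp only [Prod.mk.injEq] <;> omega

theorem tau_mem {r : ℕ} {x : ℕ × ℤ} (h : x ∈ Lam r) : tau x ∈ Lam r := by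
  rw [mem_Lam] at *
  obtain ⟨a, b⟩ := x
  simp only [tau] at *
  refine ⟨h.2.1, ?_, ?_⟩
  · split_ifs <;> omega
  · intro h0
    rw [if_pos (by omega)]
    omega

theorem tau_tau_of_mem {r : ℕ} {x : ℕ × ℤ} (h : x ∈ Lam r) : tau (tau x) = x :=
  tau_tau (mem_Lam.1 h).2.2

noncomputable def Fx (r : ℕ) : Finset (ℕ × ℤ) := (Lam r).filter (fun x => x.1 = x.2.natAbs)
noncomputable def Rr (r : ℕ) : Finset (ℕ × ℤ) := (Lam r).filter (fun x => x.1 < x.2.natAbs)
noncomputable def Rr' (r : ℕ) : Finset (ℕ × ℤ) := (Lam r).filter (fun x => x.2.natAbs < x.1)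

theorem card_Fx (r : ℕ) : (Fx r).card = 2 * r + 1 := by
  have h : Fx r = (Icc (-(r : ℤ)) r).image (fun b => (b.natAbs, b)) := by
    ext ⟨a, b⟩
    simp only [Fx, mem_filter, mem_Lam, mem_image, mem_Icc, Prod.mk.injEq]
    constructor
    · rintro ⟨⟨h1, h2, h3⟩, h4⟩
      exact ⟨b, ⟨by omega, by omega⟩, h4.symm, rfl⟩
    · rintro ⟨c, ⟨h1, h2⟩, h3, h4⟩
      subst h4
      refine ⟨⟨by omega, by omega, by omega⟩, h3.symm⟩
  rw [h, card_image_of_injective]
  · simp; omega
  · intro x y hxy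
    simp only [Prod.mk.injEq] at hxy
    exact hxy.2

theorem card_Rr (r : ℕ) : (Rr r).card = r ^ 2 := by
  have h : Rr r = ((range r) ×ˢ (range r)).image
      (fun p => if p.2 ≤ p.1 then (p.2, (p.1 : ℤ) + 1) else (p.1 + 1, -((p.2 : ℤ) + 1))) := by
    ext ⟨a, b⟩
    simp only [Rr, mem_filter, mem_Lam, mem_image, mem_product, mem_range, Prod.exists]
    constructor
    · rintro ⟨⟨h1, h2, h3⟩, h4⟩
      rcases le_or_gt 0 b with hb | hb
      · refine ⟨b.natAbs - 1, a, ⟨by omega, by omega⟩, ?_⟩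
        rw [if_pos (by omega)]
        ext <;> simp <;> omega
      · refine ⟨a - 1, b.natAbs - 1, ⟨by omega, by omega⟩, ?_⟩
        rw [if_neg (by omega)]
        ext <;> simp <;> omega
    · rintro ⟨i, j, ⟨h1, h2⟩, h3⟩
      split_ifs at h3 with h4
      · simp only [Prod.mk.injEq] at h3
        omega
      · simp only [Prod.mk.injEq] at h3
        omega
  rw [h, card_image_of_injective]
  · simp [sq]
  · rintro ⟨i, j⟩ ⟨i', j'⟩ hxy
    simp only at hxy
    split_ifs at hxy <;> simp only [Prod.mk.injEq] at hxy ⊢ <;> omega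

theorem tau_Fx {r : ℕ} {x : ℕ × ℤ} (h : x ∈ Fx r) : tau x = x := by
  obtain ⟨a, b⟩ := x
  simp only [Fx, mem_filter, mem_Lam] at h
  unfold tau
  ext
  · simp; omega
  · simp only
    split_ifs <;> omega

theorem tau_Rr {r : ℕ} {x : ℕ × ℤ} (h : x ∈ Rr r) : tau x ∈ Rr' r := by
  have h1 := tau_mem (mem_filter.1 h).1
  rw [Rr', mem_filter]
  refine ⟨h1, ?_⟩
  obtain ⟨a, b⟩ := x
  simp only [Rr, mem_filter, mem_Lam] at h
  simp only [tau]
  split_ifs <;> omega

theorem tau_Rr' {r : ℕ} {x : ℕ × ℤ} (h : x ∈ Rr' r) : tau x ∈ Rr r := by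
  have h1 := tau_mem (mem_filter.1 h).1
  rw [Rr, mem_filter]
  refine ⟨h1, ?_⟩
  obtain ⟨a, b⟩ := x
  simp only [Rr', mem_filter, mem_Lam] at h
  simp only [tau]
  split_ifs <;> omega

/-- the invariant multisets of `n` labels, as functions -/
noncomputable def InvM (n r : ℕ) : Finset ((ℕ × ℤ) →₀ ℕ) :=
  (finsuppAntidiag (Lam r) n).filter (fun m => ∀ x ∈ Lam r, m (tau x) = m x)

/-- the number of invariant multisets -/
def cnt (p q n : ℕ) : ℕ :=
  ∑ ij ∈ antidiagonal n, Nat.multichoose p ij.1 *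
    (if Even ij.2 then Nat.multichoose q (ij.2 / 2) else 0)

theorem Lam_cases {r : ℕ} {x : ℕ × ℤ} (h : x ∈ Lam r) :
    (x ∈ Fx r ∧ x ∉ Rr r ∧ x ∉ Rr' r) ∨ (x ∉ Fx r ∧ x ∈ Rr r ∧ x ∉ Rr' r) ∨
      (x ∉ Fx r ∧ x ∉ Rr r ∧ x ∈ Rr' r) := by
  simp only [Fx, Rr, Rr', mem_filter, h, true_and]
  omega

theorem sum_Lam (r : ℕ) (f : ℕ × ℤ → ℕ) : ∑ x ∈ Lam r, f x =
    ∑ x ∈ Fx r, f x + ∑ x ∈ Rr r, f x + ∑ x ∈ Rr' r, f x := by
  have h : Lam r = (Fx r ∪ Rr r) ∪ Rr' r := by
    ext x
    constructor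
    · intro hx
      rcases Lam_cases hx with h | h | h
      · simp [h.1]
      · simp [h.2.1]
      · simp [h.2.2]
    · intro hx
      simp only [mem_union, Fx, Rr, Rr', mem_filter] at hx
      tauto
  rw [h, sum_union, sum_union]
  · rw [disjoint_left]
    intro x hx hx'
    rw [Fx, mem_filter] at hx
    rw [Rr, mem_filter] at hx'
    omega
  · rw [disjoint_left]
    intro x hx hx'
    rw [mem_union, Fx, Rr, mem_filter, mem_filter] at hx
    rw [Rr', mem_filter] at hx'
    omega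

theorem sum_Rr' (r : ℕ) (f : ℕ × ℤ → ℕ) : ∑ x ∈ Rr' r, f x = ∑ x ∈ Rr r, f (tau x) := by
  symm
  apply sum_bij' (fun x _ => tau x) (fun x _ => tau x)
  · intro x hx; exact tau_Rr hx
  · intro x hx; exact tau_Rr' hx
  · intro x hx; exact tau_tau_of_mem (mem_filter.1 hx).1
  · intro x hx; exact tau_tau_of_mem (mem_filter.1 hx).1
  · intro x _; rfl

theorem card_InvM (n r : ℕ) : (InvM n r).card = cnt (2 * r + 1) (r ^ 2) n := by
  classical
  have h1 : cnt (2 * r + 1) (r ^ 2) n =
      (((antidiagonal n).filter (fun p => Even p.2)).sigma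
        (fun p => finsuppAntidiag (Fx r) p.1 ×ˢ finsuppAntidiag (Rr r) (p.2 / 2))).card := by
    rw [card_sigma, cnt, sum_filter]
    apply sum_congr rfl
    intro p _
    rw [card_product, card_finsuppAntidiag_nat_eq_multichoose,
      card_finsuppAntidiag_nat_eq_multichoose, card_Fx, card_Rr]
    split_ifs <;> simp
  rw [h1]
  apply card_nbij'
    (fun m => (⟨(∑ x ∈ Fx r, m x, 2 * ∑ x ∈ Rr r, m x), (m.filter (· ∈ Fx r), m.filter (· ∈ Rr r))⟩ :
      (_ : ℕ × ℕ) × (((ℕ × ℤ) →₀ ℕ) × ((ℕ × ℤ) →₀ ℕ))))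
    (fun q => q.2.1 + q.2.2 + Finsupp.onFinset (Rr' r)
      (fun x => if x ∈ Rr' r then q.2.2 (tau x) else 0) (by intro x hx; by_contra h; simp [h] at hx))
  · intro m hm
    rw [mem_coe, InvM, mem_filter, mem_finsuppAntidiag] at hm
    obtain ⟨⟨hs, hsupp⟩, hinv⟩ := hm
    have h2 : ∑ x ∈ Rr' r, m x = ∑ x ∈ Rr r, m x := by
      rw [sum_Rr']
      apply sum_congr rfl
      intro x hx
      exact hinv x (mem_filter.1 hx).1
    rw [sum_Lam, h2] at hs
    simp only [coe_sigma, Set.mem_sigma_iff, mem_coe, mem_filter, HasAntidiagonal.mem_antidiagonal, mem_product,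
      mem_finsuppAntidiag]
    refine ⟨⟨by omega, even_two_mul _⟩, ⟨?_, ?_⟩, ⟨?_, ?_⟩⟩
    · apply sum_congr rfl
      intro x hx
      rw [Finsupp.filter_apply, if_pos hx]
    · intro x hx
      rw [Finsupp.support_filter, mem_filter] at hx
      exact hx.2
    · rw [Nat.mul_div_cancel_left _ (by norm_num)]
      apply sum_congr rfl
      intro x hx
      rw [Finsupp.filter_apply, if_pos hx]
    · intro x hx
      rw [Finsupp.support_filter, mem_filter] at hx
      exact hx.2
  · rintro ⟨⟨i, j⟩, ⟨u, v⟩⟩ hq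
    simp only [coe_sigma, Set.mem_sigma_iff, mem_coe, mem_filter, HasAntidiagonal.mem_antidiagonal, mem_product,
      mem_finsuppAntidiag] at hq
    obtain ⟨⟨hij, hj⟩, ⟨hu, hus⟩, ⟨hv, hvs⟩⟩ := hq
    have hu0 : ∀ x, x ∉ Fx r → u x = 0 := fun x hx => by
      by_contra h; exact hx (hus (Finsupp.mem_support_iff.2 h))
    have hv0 : ∀ x, x ∉ Rr r → v x = 0 := fun x hx => by
      by_contra h; exact hx (hvs (Finsupp.mem_support_iff.2 h))
    rw [mem_coe, InvM, mem_filter, mem_finsuppAntidiag]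
    refine ⟨⟨?_, ?_⟩, ?_⟩
    · rw [sum_Lam, sum_Rr']
      simp only [Finsupp.add_apply, Finsupp.onFinset_apply]
      have a1 : ∑ x ∈ Fx r, (u x + v x + (if x ∈ Rr' r then v (tau x) else 0)) = i := by
        rw [← hu]
        apply sum_congr rfl
        intro x hx
        rcases Lam_cases (mem_filter.1 hx).1 with h | h | h
        · rw [hv0 x h.2.1, if_neg h.2.2]; rfl
        · exact absurd hx h.1
        · exact absurd hx h.1
      have a2 : ∑ x ∈ Rr r, (u x + v x + (if x ∈ Rr' r then v (tau x) else 0)) = j / 2 := by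
        rw [← hv]
        apply sum_congr rfl
        intro x hx
        rcases Lam_cases (mem_filter.1 hx).1 with h | h | h
        · exact absurd hx h.2.1
        · rw [hu0 x h.1, if_neg h.2.2]; simp
        · exact absurd hx h.2.1
      have a3 : ∑ x ∈ Rr r, (u (tau x) + v (tau x) +
          (if tau x ∈ Rr' r then v (tau (tau x)) else 0)) = j / 2 := by
        rw [← hv]
        apply sum_congr rfl
        intro x hx
        have hx' := tau_Rr hx
        rw [if_pos hx', tau_tau_of_mem (mem_filter.1 hx).1]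
        rcases Lam_cases (mem_filter.1 hx').1 with h | h | h
        · exact absurd hx' h.2.2
        · exact absurd hx' h.2.2
        · rw [hu0 _ h.1, hv0 _ h.2.1]; simp
      rw [a1, a2, a3]
      obtain ⟨k, hk⟩ := hj
      omega
    · intro x hx
      rw [Finsupp.mem_support_iff] at hx
      by_contra hL
      apply hx
      simp only [Finsupp.add_apply, Finsupp.onFinset_apply]
      have b1 : x ∉ Fx r := fun h => hL (mem_filter.1 h).1
      have b2 : x ∉ Rr r := fun h => hL (mem_filter.1 h).1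
      have b3 : x ∉ Rr' r := fun h => hL (mem_filter.1 h).1
      rw [hu0 x b1, hv0 x b2, if_neg b3]
      rfl
    · intro x hx
      simp only [Finsupp.add_apply, Finsupp.onFinset_apply]
      rcases Lam_cases hx with h | h | h
      · simp only [tau_Fx h.1]
      · have h' := tau_Rr h.2.1
        rcases Lam_cases (mem_filter.1 h').1 with g | g | g
        · exact absurd h' g.2.2
        · exact absurd h' g.2.2
        · rw [hu0 _ g.1, hv0 _ g.2.1, if_pos g.2.2, tau_tau_of_mem hx, hu0 _ h.1, if_neg h.2.2]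
          ring
      · have h' := tau_Rr' h.2.2
        rcases Lam_cases (mem_filter.1 h').1 with g | g | g
        · exact absurd h' g.2.1
        · rw [hu0 _ g.1, if_neg g.2.2, hu0 _ h.1, hv0 _ h.2.1, if_pos h.2.2]
          ring
        · exact absurd h' g.2.1
  · intro m hm
    rw [mem_coe, InvM, mem_filter, mem_finsuppAntidiag] at hm
    obtain ⟨⟨hs, hsupp⟩, hinv⟩ := hm
    ext x
    simp only [Finsupp.add_apply, Finsupp.onFinset_apply, Finsupp.filter_apply]
    by_cases hx : x ∈ Lam r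
    · rcases Lam_cases hx with h | h | h
      · rw [if_pos h.1, if_neg h.2.1, if_neg h.2.2]; rfl
      · rw [if_neg h.1, if_pos h.2.1, if_neg h.2.2]; simp
      · rw [if_neg h.1, if_neg h.2.1, if_pos h.2.2, if_pos (tau_Rr' h.2.2), hinv x hx]; simp
    · have h0 : m x = 0 := by
        by_contra h; exact hx (hsupp (Finsupp.mem_support_iff.2 h))
      have b1 : x ∉ Fx r := fun h => hx (mem_filter.1 h).1
      have b2 : x ∉ Rr r := fun h => hx (mem_filter.1 h).1
      have b3 : x ∉ Rr' r := fun h => hx (mem_filter.1 h).1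
      rw [if_neg b1, if_neg b2, if_neg b3, h0]
      rfl
  · rintro ⟨⟨i, j⟩, ⟨u, v⟩⟩ hq
    simp only [coe_sigma, Set.mem_sigma_iff, mem_coe, mem_filter, HasAntidiagonal.mem_antidiagonal, mem_product,
      mem_finsuppAntidiag] at hq
    obtain ⟨⟨hij, hj⟩, ⟨hu, hus⟩, ⟨hv, hvs⟩⟩ := hq
    have hu0 : ∀ x, x ∉ Fx r → u x = 0 := fun x hx => by
      by_contra h; exact hx (hus (Finsupp.mem_support_iff.2 h))
    have hv0 : ∀ x, x ∉ Rr r → v x = 0 := fun x hx => by
      by_contra h; exact hx (hvs (Finsupp.mem_support_iff.2 h))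
    have c1 : ∀ x ∈ Fx r, (u + v + Finsupp.onFinset (Rr' r)
        (fun x => if x ∈ Rr' r then v (tau x) else 0)
        (by intro x hx; by_contra h; simp [h] at hx)) x = u x := by
      intro x hx
      simp only [Finsupp.add_apply, Finsupp.onFinset_apply]
      rcases Lam_cases (mem_filter.1 hx).1 with h | h | h
      · rw [hv0 x h.2.1, if_neg h.2.2]; rfl
      · exact absurd hx h.1
      · exact absurd hx h.1
    have c2 : ∀ x ∈ Rr r, (u + v + Finsupp.onFinset (Rr' r)
        (fun x => if x ∈ Rr' r then v (tau x) else 0)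
        (by intro x hx; by_contra h; simp [h] at hx)) x = v x := by
      intro x hx
      simp only [Finsupp.add_apply, Finsupp.onFinset_apply]
      rcases Lam_cases (mem_filter.1 hx).1 with h | h | h
      · exact absurd hx h.2.1
      · rw [hu0 x h.1, if_neg h.2.2]; simp
      · exact absurd hx h.2.1
    have d1 : ∑ x ∈ Fx r, (u + v + Finsupp.onFinset (Rr' r)
        (fun x => if x ∈ Rr' r then v (tau x) else 0)
        (by intro x hx; by_contra h; simp [h] at hx)) x = i := by
      rw [← hu]; exact sum_congr rfl c1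
    have d2 : ∑ x ∈ Rr r, (u + v + Finsupp.onFinset (Rr' r)
        (fun x => if x ∈ Rr' r then v (tau x) else 0)
        (by intro x hx; by_contra h; simp [h] at hx)) x = j / 2 := by
      rw [← hv]; exact sum_congr rfl c2
    obtain ⟨k, hk⟩ := hj
    have e1 : Finsupp.filter (· ∈ Fx r) (u + v + Finsupp.onFinset (Rr' r)
        (fun x => if x ∈ Rr' r then v (tau x) else 0)
        (by intro x hx; by_contra h; simp [h] at hx)) = u := by
      ext x
      rw [Finsupp.filter_apply]
      split_ifs with h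
      · exact c1 x h
      · exact (hu0 x h).symm
    have e2 : Finsupp.filter (· ∈ Rr r) (u + v + Finsupp.onFinset (Rr' r)
        (fun x => if x ∈ Rr' r then v (tau x) else 0)
        (by intro x hx; by_contra h; simp [h] at hx)) = v := by
      ext x
      rw [Finsupp.filter_apply]
      split_ifs with h
      · exact c2 x h
      · exact (hv0 x h).symm
    simp only [d1, d2, e1, e2]
    have : 2 * (j / 2) = j := by omega
    rw [this]

end Pool.Agent.J4.H46.InvB
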