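import Mathlib
import Pool.Agent.J4.H46.InvB.Labels

/-!
# Involutions with compatible sequences correspond to invariant multisets
-/

set_option autoImplicit false

namespace Pool.Agent.J4.H46.InvB

open Finset

abbrev Wn (n : ℕ) := Equiv.Perm (Fin n) × (Fin n → Bool)

def IsInv {n : ℕ} (w : Wn n) : Prop := ∀ i : Fin n, w.1 (w.1 i) = i ∧ w.2 (w.1 i) = w.2 i

def sv {n : ℕ} (w : Wn n) (i : Fin n) : ℤ :=
  (if w.2 i then (-1 : ℤ) else 1) * (((w.1 i : ℕ) : ℤ) + 1)

structure Compat {n : ℕ} (w : Wn n) (f : Fin n → ℕ) : Prop where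
  mono : Monotone f
  zero : ∀ i, f i = 0 → w.2 i = false
  incr : ∀ i j, i < j → f i = f j → sv w i < sv w j

theorem pinv {n : ℕ} (σ : Equiv.Perm (Fin n)) (i : Fin n) : σ (σ⁻¹ i) = i := σ.apply_symm_apply i

/-- the multiset of values -/
def mv {α : Type*} {n : ℕ} (φ : Fin n → α) : Multiset α := univ.val.map φ

theorem mv_eq {α : Type*} {n : ℕ} (φ : Fin n → α) : mv φ = (List.ofFn φ : Multiset α) :=
  Fin.univ_val_map φ

theorem mv_comp {α : Type*} {n : ℕ} (φ : Fin n → α) (σ : Equiv.Perm (Fin n)) :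
    mv (φ ∘ σ) = mv φ := by
  rw [mv_eq, mv_eq, Multiset.coe_eq_coe]
  exact σ.ofFn_comp_perm φ

theorem mono_unique {α : Type*} [LinearOrder α] {n : ℕ} {φ ψ : Fin n → α} (h1 : Monotone φ)
    (h2 : Monotone ψ) (h : mv φ = mv ψ) : φ = ψ := by
  rw [mv_eq, mv_eq, Multiset.coe_eq_coe] at h
  exact List.ofFn_injective (h.eq_of_pairwise' h1.sortedLE_ofFn.pairwise h2.sortedLE_ofFn.pairwise)

theorem mono_exists {α : Type*} [LinearOrder α] {n : ℕ} (s : Multiset α) (hs : s.card = n) :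
    ∃ φ : Fin n → α, Monotone φ ∧ mv φ = s := by
  have hl : (s.sort (· ≤ ·)).length = n := by rw [Multiset.length_sort, hs]
  subst hl
  refine ⟨(s.sort (· ≤ ·)).get, ?_, ?_⟩
  · exact (Multiset.pairwise_sort s (· ≤ ·)).sortedLE.monotone_get
  · rw [mv_eq, List.ofFn_get, Multiset.sort_eq]

abbrev LL := ℕ ×ₗ ℤ

/-- monotone with respect to the lexicographic order -/
def MonoLex {n : ℕ} (φ : Fin n → ℕ × ℤ) : Prop := Monotone (fun i => (toLex (φ i) : LL))

theorem monoLex_unique {n : ℕ} {φ ψ : Fin n → ℕ × ℤ} (h1 : MonoLex φ) (h2 : MonoLex ψ)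
    (h : mv φ = mv ψ) : φ = ψ := by
  have h3 : mv (fun i => (toLex (φ i) : LL)) = mv (fun i => (toLex (ψ i) : LL)) := by
    have := congrArg (Multiset.map (fun x => (toLex x : LL))) h
    simp only [mv, Multiset.map_map] at this
    exact this
  have := mono_unique h1 h2 h3
  funext i
  exact toLex.injective (congrFun this i)

theorem monoLex_exists {n : ℕ} (s : Multiset (ℕ × ℤ)) (hs : s.card = n) :
    ∃ φ : Fin n → ℕ × ℤ, MonoLex φ ∧ mv φ = s := by
  obtain ⟨ψ, h1, h2⟩ := mono_exists (s.map (fun x => (toLex x : LL))) (by rw [Multiset.card_map, hs])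
  refine ⟨fun i => ofLex (ψ i), h1, ?_⟩
  have := congrArg (Multiset.map (fun x : LL => ofLex x)) h2
  unfold mv at this ⊢
  rw [Multiset.map_map, Multiset.map_map] at this
  rw [show (fun i => ofLex (ψ i)) = (fun x : LL => ofLex x) ∘ ψ from rfl, this]
  exact Multiset.map_id s

/-- the key which is sorted to get the permutation -/
def key {n : ℕ} (φ : Fin n → ℕ × ℤ) (i : Fin n) : LL ×ₗ ℤ :=
  toLex (toLex (tau (φ i)), if 0 ≤ (φ i).2 then ((i : ℕ) : ℤ) else -((i : ℕ) : ℤ))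

/-- `σ` is the permutation belonging to `φ` -/
structure Bel {n : ℕ} (φ : Fin n → ℕ × ℤ) (σ : Equiv.Perm (Fin n)) : Prop where
  map : ∀ i, φ (σ i) = tau (φ i)
  pos : ∀ i j, i < j → φ i = φ j → 0 ≤ (φ i).2 → σ i < σ j
  neg : ∀ i j, i < j → φ i = φ j → (φ i).2 < 0 → σ j < σ i

theorem key_lt {n : ℕ} {φ : Fin n → ℕ × ℤ} {a b : Fin n} :
    key φ a < key φ b ↔ (toLex (tau (φ a)) : LL) < toLex (tau (φ b)) ∨ (tau (φ a) = tau (φ b) ∧
      (if 0 ≤ (φ a).2 then ((a : ℕ) : ℤ) else -((a : ℕ) : ℤ)) <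
        (if 0 ≤ (φ b).2 then ((b : ℕ) : ℤ) else -((b : ℕ) : ℤ))) := by
  unfold key
  rw [Prod.Lex.toLex_lt_toLex]
  simp

theorem Bel.unique {n : ℕ} {φ : Fin n → ℕ × ℤ} {σ : Equiv.Perm (Fin n)} (hφ : MonoLex φ)
    (hg : ∀ i, (φ i).1 = 0 → 0 ≤ (φ i).2) (h : Bel φ σ) : σ⁻¹ = Tuple.sort (key φ) := by
  have hs : StrictMono (key φ ∘ (σ⁻¹ : Equiv.Perm (Fin n))) := by
    intro i j hij
    show key φ (σ⁻¹ i) < key φ (σ⁻¹ j)
    set a := σ⁻¹ i with ha
    set b := σ⁻¹ j with hb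
    have ha' : σ a = i := by rw [ha]; simp
    have hb' : σ b = j := by rw [hb]; simp
    have h1 : φ i = tau (φ a) := by rw [← ha', h.map]
    have h2 : φ j = tau (φ b) := by rw [← hb', h.map]
    have h3 : (toLex (φ i) : LL) ≤ toLex (φ j) := hφ hij.le
    rw [h1, h2] at h3
    rw [key_lt]
    rcases h3.lt_or_eq with h4 | h4
    · exact Or.inl h4
    · right
      have h5 : tau (φ a) = tau (φ b) := toLex.injective h4
      have h6 : φ a = φ b := by
        rw [← tau_tau (hg a), ← tau_tau (hg b), h5]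
      refine ⟨h5, ?_⟩
      have hab : a ≠ b := by
        intro hab
        rw [hab, hb'] at ha'
        exact hij.ne' ha'
      rcases le_or_gt 0 (φ a).2 with h7 | h7
      · have h7' : 0 ≤ (φ b).2 := h6 ▸ h7
        rw [if_pos h7, if_pos h7']
        rcases lt_or_gt_of_ne hab with h8 | h8
        · exact_mod_cast h8
        · have := h.pos b a h8 h6.symm h7'
          rw [ha', hb'] at this
          exact absurd this (not_lt.2 hij.le)
      · have h7' : (φ b).2 < 0 := h6 ▸ h7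
        rw [if_neg (not_le.2 h7), if_neg (not_le.2 h7')]
        rcases lt_or_gt_of_ne hab with h8 | h8
        · have := h.neg a b h8 h6 h7
          rw [ha', hb'] at this
          exact absurd this (not_lt.2 hij.le)
        · have : ((b : ℕ) : ℤ) < ((a : ℕ) : ℤ) := by exact_mod_cast h8
          linarith
  rw [Tuple.eq_sort_iff]
  refine ⟨hs.monotone, ?_⟩
  intro i j hij he
  exact absurd he (hs hij).ne

theorem sign_tau {x : ℕ × ℤ} (h : x.1 = 0 → 0 ≤ x.2) : 0 ≤ (tau x).2 ↔ 0 ≤ x.2 := by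
  unfold tau
  simp only
  split_ifs with h1
  · simp [h1]
  · constructor
    · intro h2
      exact h (by omega)
    · intro h2
      exact absurd h2 h1

theorem Bel.inv {n : ℕ} {φ : Fin n → ℕ × ℤ} {σ : Equiv.Perm (Fin n)} 
    (hg : ∀ i, (φ i).1 = 0 → 0 ≤ (φ i).2) (h : Bel φ σ) : Bel φ σ⁻¹ := by
  have hm : ∀ i, φ (σ⁻¹ i) = tau (φ i) := by
    intro i
    have h1 := h.map (σ⁻¹ i)
    rw [pinv] at h1
    rw [h1, tau_tau (hg _)]
  refine ⟨hm, ?_, ?_⟩
  · intro i j hij he hp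
    by_contra hc
    have hne : σ⁻¹ i ≠ σ⁻¹ j := fun h => hij.ne (σ⁻¹.injective h)
    have hlt : σ⁻¹ j < σ⁻¹ i := lt_of_le_of_ne (not_lt.1 hc) hne.symm
    have h2 : φ (σ⁻¹ j) = φ (σ⁻¹ i) := by rw [hm, hm, he]
    have h3 : 0 ≤ (φ (σ⁻¹ j)).2 := by
      rw [hm, sign_tau (hg j), ← he]; exact hp
    have h4 := h.pos _ _ hlt h2 h3
    rw [pinv, pinv] at h4
    exact absurd h4 (not_lt.2 hij.le)
  · intro i j hij he hp
    by_contra hc
    have hne : σ⁻¹ i ≠ σ⁻¹ j := fun h => hij.ne (σ⁻¹.injective h)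
    have hlt : σ⁻¹ i < σ⁻¹ j := lt_of_le_of_ne (not_lt.1 hc) hne
    have h2 : φ (σ⁻¹ i) = φ (σ⁻¹ j) := by rw [hm, hm, he]
    have h3 : (φ (σ⁻¹ i)).2 < 0 := by
      rw [hm]
      by_contra h5
      rw [not_lt, sign_tau (hg i)] at h5
      exact absurd hp (not_lt.2 h5)
    have h4 := h.neg _ _ hlt h2 h3
    rw [pinv, pinv] at h4
    exact absurd h4 (not_lt.2 hij.le)

theorem Bel.invol {n : ℕ} {φ : Fin n → ℕ × ℤ} {σ : Equiv.Perm (Fin n)} (hφ : MonoLex φ)
    (hg : ∀ i, (φ i).1 = 0 → 0 ≤ (φ i).2) (h : Bel φ σ) (i : Fin n) : σ (σ i) = i := by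
  have h1 := h.unique hφ hg
  have h2 := (h.inv hg).unique hφ hg
  rw [inv_inv, ← h1] at h2
  have h3 : σ (σ i) = σ (σ⁻¹ i) := by rw [← h2]
  rw [h3, pinv]

theorem Bel.exists {n : ℕ} {φ : Fin n → ℕ × ℤ} (hφ : MonoLex φ)
    (hg : ∀ i, (φ i).1 = 0 → 0 ≤ (φ i).2) (hm : mv (fun i => tau (φ i)) = mv φ) :
    ∃ σ : Equiv.Perm (Fin n), Bel φ σ := by
  set s := Tuple.sort (key φ) with hs
  have hmono : Monotone (key φ ∘ s) := Tuple.monotone_sort (key φ)
  have h1 : MonoLex (fun i => tau (φ (s i))) := by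
    intro i j hij
    have h2 := hmono hij
    show (toLex (tau (φ (s i))) : LL) ≤ toLex (tau (φ (s j)))
    by_contra h3
    rw [not_le] at h3
    have h4 : key φ (s j) < key φ (s i) := by
      rw [key_lt]; exact Or.inl h3
    exact absurd h4 (not_lt.2 h2)
  have h2 : (fun i => tau (φ (s i))) = φ := by
    apply monoLex_unique h1 hφ
    rw [← hm]
    exact mv_comp (fun i => tau (φ i)) s
  have hinj : Function.Injective (key φ) := by
    intro a b hab
    by_contra hne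
    have h3 := toLex.injective hab
    rw [Prod.mk.injEq] at h3
    obtain ⟨h3, h4⟩ := h3
    have h5 : tau (φ a) = tau (φ b) := toLex.injective h3
    have h6 : φ a = φ b := by
      rw [← tau_tau (hg a), ← tau_tau (hg b), h5]
    rw [h6] at h4
    split_ifs at h4
    · exact hne (Fin.ext (by exact_mod_cast h4))
    · exact hne (Fin.ext (by
        have := neg_injective h4
        exact_mod_cast this))
  have hlt : ∀ a b, key φ a < key φ b → s⁻¹ a < s⁻¹ b := by
    intro a b hab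
    by_contra hc
    have h3 := hmono (not_lt.1 hc)
    simp only [Function.comp_apply, pinv] at h3
    exact absurd hab (not_lt.2 h3)
  refine ⟨s⁻¹, ?_, ?_, ?_⟩
  · intro i
    have := congrFun h2 (s⁻¹ i)
    simp only [pinv] at this
    exact this.symm
  · intro i j hij he hp
    apply hlt
    rw [key_lt]
    right
    refine ⟨by rw [he], ?_⟩
    rw [if_pos hp, if_pos (he ▸ hp)]
    exact_mod_cast hij
  · intro i j hij he hp
    apply hlt
    rw [key_lt]
    right
    refine ⟨by rw [he], ?_⟩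
    rw [if_neg (not_le.2 hp), if_neg (not_le.2 (he ▸ hp))]
    have : ((i : ℕ) : ℤ) < ((j : ℕ) : ℤ) := by exact_mod_cast hij
    linarith

end Pool.Agent.J4.H46.InvB
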