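import Mathlib
import Pool.Agent.J4.H46.InvB.Bij

/-!
# The number of pairs (involution, compatible sequence)
-/

set_option autoImplicit false

namespace Pool.Agent.J4.H46.InvB

open Finset

open Classical in
/-- pairs of an involution and a compatible sequence with values at most `r` -/
noncomputable def T (n r : ℕ) : Finset (Wn n × (Fin n → Fin (r + 1))) :=
  univ.filter (fun p => IsInv p.1 ∧ Compat p.1 (fun i => ((p.2 i : ℕ))))

/-- the labels of the positions -/
def phi {n r : ℕ} (p : Wn n × (Fin n → Fin (r + 1))) (i : Fin n) : ℕ × ℤ :=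
  ((p.2 i : ℕ), if p.1.2 i then -((p.2 (p.1.1 i) : ℕ) : ℤ) else ((p.2 (p.1.1 i) : ℕ) : ℤ))

theorem mem_T {n r : ℕ} {p : Wn n × (Fin n → Fin (r + 1))} :
    p ∈ T n r ↔ IsInv p.1 ∧ Compat p.1 (fun i => ((p.2 i : ℕ))) := by
  classical
  unfold T
  simp

section
variable {n r : ℕ} {p : Wn n × (Fin n → Fin (r + 1))}

theorem phi_neg (hp : p ∈ T n r) (i : Fin n) : (phi p i).2 < 0 ↔ p.1.2 i = true := by
  rw [mem_T] at hp
  obtain ⟨h1, h2⟩ := hp
  unfold phi
  constructor
  · intro h
    by_contra h3
    simp only [Bool.not_eq_true] at h3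
    rw [if_neg (by simp [h3])] at h
    omega
  · intro h
    rw [if_pos h]
    have h3 : ((p.2 (p.1.1 i) : ℕ)) ≠ 0 := by
      intro h0
      have h4 := h2.zero (p.1.1 i) h0
      rw [(h1 i).2, h] at h4
      exact absurd h4 (by decide)
    omega

theorem phi_nonneg (hp : p ∈ T n r) (i : Fin n) : 0 ≤ (phi p i).2 ↔ p.1.2 i = false := by
  have := phi_neg hp i
  rw [← not_lt, this]
  simp

theorem phi_mem (hp : p ∈ T n r) (i : Fin n) : phi p i ∈ Lam r := by
  rw [mem_Lam]
  have h := phi_nonneg hp i
  rw [mem_T] at hp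
  refine ⟨?_, ?_, ?_⟩
  · have := (p.2 i).2
    show (p.2 i : ℕ) ≤ r
    omega
  · have := (p.2 (p.1.1 i)).2
    unfold phi
    split_ifs <;> omega
  · intro h0
    rw [h]
    exact hp.2.zero i h0

theorem natAbs_phi (i : Fin n) : (phi p i).2.natAbs = (p.2 (p.1.1 i) : ℕ) := by
  unfold phi
  split_ifs <;> simp

theorem phi_monoLex (hp : p ∈ T n r) : MonoLex (phi p) := by
  intro i j hij
  show (toLex (phi p i) : LL) ≤ toLex (phi p j)
  rcases hij.lt_or_eq with hij | hij
  swap
  · rw [hij]
  obtain ⟨h1, h2⟩ := mem_T.1 hp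
  rw [Prod.Lex.toLex_le_toLex]
  have h3 : (p.2 i : ℕ) ≤ (p.2 j : ℕ) := h2.mono hij.le
  rcases h3.lt_or_eq with h4 | h4
  · exact Or.inl h4
  right
  refine ⟨h4, ?_⟩
  have h5 := h2.incr i j hij h4
  unfold sv at h5
  unfold phi
  simp only
  rcases hi : p.1.2 i with _ | _ <;> rcases hj : p.1.2 j with _ | _
  · simp only [hi, hj] at h5 ⊢
    simp only [Bool.false_eq_true, if_false, one_mul, add_lt_add_iff_right, Nat.cast_lt] at h5 ⊢
    have : (p.2 (p.1.1 i) : ℕ) ≤ (p.2 (p.1.1 j) : ℕ) := h2.mono (le_of_lt h5)
    omega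
  · simp only [hi, hj] at h5
    simp only [Bool.false_eq_true, if_false, one_mul, if_true] at h5
    omega
  · simp only [Bool.false_eq_true, if_false, if_true]
    omega
  · simp only [hi, hj] at h5 ⊢
    simp only [if_true] at h5 ⊢
    have h6 : p.1.1 j < p.1.1 i := by
      rw [Fin.lt_def]
      omega
    have : (p.2 (p.1.1 j) : ℕ) ≤ (p.2 (p.1.1 i) : ℕ) := h2.mono (le_of_lt h6)
    omega

theorem phi_bel (hp : p ∈ T n r) : Bel (phi p) p.1.1 := by
  obtain ⟨h1, h2⟩ := mem_T.1 hp
  refine ⟨?_, ?_, ?_⟩
  · intro i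
    have hs : (phi p (p.1.1 i)) = ((p.2 (p.1.1 i) : ℕ), if p.1.2 i then -((p.2 i : ℕ) : ℤ) else
        ((p.2 i : ℕ) : ℤ)) := by
      unfold phi
      rw [(h1 i).1, (h1 i).2]
    rw [hs]
    unfold tau
    rw [natAbs_phi]
    have h3 := phi_nonneg hp i
    rcases hi : p.1.2 i with _ | _
    · rw [if_pos (h3.2 hi)]
      simp [phi]
    · have : ¬ (0 ≤ (phi p i).2) := by
        rw [h3, hi]; simp
      rw [if_neg this]
      simp [phi]
  · intro i j hij he hs
    have h4 : (p.2 i : ℕ) = (p.2 j : ℕ) := congrArg Prod.fst he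
    have h5 := h2.incr i j hij h4
    have h6 := (phi_nonneg hp i).1 hs
    have h7 := (phi_nonneg hp j).1 (he ▸ hs)
    unfold sv at h5
    rw [h6, h7] at h5
    simp only [Bool.false_eq_true, if_false, one_mul] at h5
    rw [Fin.lt_def]
    omega
  · intro i j hij he hs
    have h4 : (p.2 i : ℕ) = (p.2 j : ℕ) := congrArg Prod.fst he
    have h5 := h2.incr i j hij h4
    have h6 := (phi_neg hp i).1 hs
    have h7 := (phi_neg hp j).1 (he ▸ hs)
    unfold sv at h5
    rw [h6, h7] at h5
    simp only [if_true] at h5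
    rw [Fin.lt_def]
    omega

end

theorem mem_InvM {n r : ℕ} {m : (ℕ × ℤ) →₀ ℕ} : m ∈ InvM n r ↔
    (∑ x ∈ Lam r, m x = n ∧ m.support ⊆ Lam r) ∧ ∀ x ∈ Lam r, m (tau x) = m x := by
  rw [InvM, mem_filter, mem_finsuppAntidiag]

theorem count_mv {n : ℕ} (φ : Fin n → ℕ × ℤ) (x : ℕ × ℤ) :
    (mv φ).count x = (univ.filter (fun i => φ i = x)).card := by
  unfold mv
  rw [Multiset.count_map]
  simp only [eq_comm]
  rfl

theorem card_T (n r : ℕ) : (T n r).card = cnt (2 * r + 1) (r ^ 2) n := by
  rw [← card_InvM]
  apply card_nbij (fun p => Multiset.toFinsupp (mv (phi p)))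
  · intro p hp
    rw [mem_coe] at hp
    rw [mem_coe, mem_InvM]
    have hb := phi_bel hp
    have hcard : (mv (phi p)).card = n := by simp [mv]
    have hsub : (mv (phi p)).toFinset ⊆ Lam r := by
      intro x hx
      rw [Multiset.mem_toFinset, mv, Multiset.mem_map] at hx
      obtain ⟨i, _, rfl⟩ := hx
      exact phi_mem hp i
    refine ⟨⟨?_, ?_⟩, ?_⟩
    · simp only [Multiset.toFinsupp_apply]
      exact (Multiset.sum_count_eq_card
        (fun a ha => hsub (Multiset.mem_toFinset.2 ha))).trans hcard
    · rw [Multiset.toFinsupp_support]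
      exact hsub
    · intro x hx
      simp only [Multiset.toFinsupp_apply]
      rw [count_mv, count_mv]
      symm
      apply card_nbij (fun i => p.1.1 i)
      · intro i hi
        rw [mem_coe, mem_filter] at hi ⊢
        refine ⟨mem_univ _, ?_⟩
        rw [hb.map, hi.2]
      · intro i _ j _ h
        exact p.1.1.injective h
      · intro j hj
        rw [mem_coe, mem_filter] at hj
        refine ⟨p.1.1 j, ?_, ((mem_T.1 hp).1 j).1⟩
        rw [mem_coe, mem_filter]
        refine ⟨mem_univ _, ?_⟩
        rw [hb.map, hj.2, tau_tau_of_mem hx]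
  · intro p hp q hq h
    rw [mem_coe] at hp hq
    simp only [EmbeddingLike.apply_eq_iff_eq] at h
    have h1 : phi p = phi q := monoLex_unique (phi_monoLex hp) (phi_monoLex hq) h
    have h2 : p.2 = q.2 := by
      funext i
      apply Fin.ext
      exact congrArg Prod.fst (congrFun h1 i)
    have h3 : p.1.2 = q.1.2 := by
      funext i
      have h4 := phi_neg hp i
      have h5 := phi_neg hq i
      rw [h1, h5] at h4
      rcases hi : p.1.2 i with _ | _ <;> rcases hj : q.1.2 i with _ | _ <;> simp [hi, hj] at h4 ⊢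
    have h6 : p.1.1 = q.1.1 := by
      have hg : ∀ i, (phi p i).1 = 0 → 0 ≤ (phi p i).2 := fun i => (mem_Lam.1 (phi_mem hp i)).2.2
      have h7 := (phi_bel hp).unique (phi_monoLex hp) hg
      have h8 := (phi_bel hq).unique (phi_monoLex hq) (h1 ▸ hg)
      rw [← h1, ← h7] at h8
      exact (inv_injective h8).symm
    exact Prod.ext (Prod.ext h6 h3) h2
  · intro m hm
    rw [mem_coe, mem_InvM] at hm
    obtain ⟨⟨hs, hsupp⟩, hinv⟩ := hm
    set s : Multiset (ℕ × ℤ) := Multiset.toFinsupp.symm m with hsdef
    have hsm : Multiset.toFinsupp s = m := by rw [hsdef]; simp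
    have hcount : ∀ x, s.count x = m x := by
      intro x
      rw [← hsm, Multiset.toFinsupp_apply]
    have hmem : ∀ x ∈ s, x ∈ Lam r := by
      intro x hx
      apply hsupp
      rw [Finsupp.mem_support_iff, ← hcount]
      exact Multiset.count_ne_zero.2 hx
    have hcard : s.card = n := by
      rw [← hs, ← Multiset.sum_count_eq_card hmem]
      exact sum_congr rfl (fun x _ => hcount x)
    obtain ⟨φ, hφ, hφs⟩ := monoLex_exists s hcard
    have hφL : ∀ i, φ i ∈ Lam r := by
      intro i
      apply hmem
      rw [← hφs, mv, Multiset.mem_map]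
      exact ⟨i, mem_univ_val i, rfl⟩
    have hg : ∀ i, (φ i).1 = 0 → 0 ≤ (φ i).2 := fun i => (mem_Lam.1 (hφL i)).2.2
    have hmv : mv (fun i => tau (φ i)) = mv φ := by
      ext x
      rw [count_mv]
      by_cases hx : x ∈ Lam r
      · have h1 : (univ.filter (fun i => tau (φ i) = x)) = univ.filter (fun i => φ i = tau x) := by
          apply filter_congr
          intro i _
          constructor
          · intro h; rw [← h, tau_tau (hg i)]
          · intro h; rw [h, tau_tau_of_mem hx]
        rw [h1, ← count_mv, hφs, hcount, hcount, hinv x hx]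
      · have h1 : (univ.filter (fun i => tau (φ i) = x)) = ∅ := by
          rw [filter_eq_empty_iff]
          intro i _ h
          exact hx (h ▸ tau_mem (hφL i))
        rw [h1, card_empty, hφs, hcount]
        by_contra h2
        exact hx (hsupp (Finsupp.mem_support_iff.2 (Ne.symm h2)))
    obtain ⟨σ, hσ⟩ := Bel.exists hφ hg hmv
    have hinvol := hσ.invol hφ hg
    have hf1 : ∀ i, (φ i).1 < r + 1 := fun i => by
      have := (mem_Lam.1 (hφL i)).1
      omega
    set p : Wn n × (Fin n → Fin (r + 1)) :=
      ((σ, fun i => decide ((φ i).2 < 0)), fun i => ⟨(φ i).1, hf1 i⟩) with hpdef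
    have hfσ : ∀ i, (φ (σ i)).1 = (φ i).2.natAbs := by
      intro i
      rw [hσ.map]
      rfl
    have hp : p ∈ T n r := by
      rw [mem_T]
      refine ⟨?_, ?_, ?_, ?_⟩
      · intro i
        refine ⟨hinvol i, ?_⟩
        show decide ((φ (σ i)).2 < 0) = decide ((φ i).2 < 0)
        rw [hσ.map]
        have := sign_tau (hg i)
        by_cases h : (φ i).2 < 0
        · have h2 : (tau (φ i)).2 < 0 := by
            rw [← not_le, this, not_le]; exact h
          simp [h, h2]
        · have h2 : ¬ (tau (φ i)).2 < 0 := by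
            rw [not_lt, this, ← not_lt]; exact h
          simp [h, h2]
      · intro i j hij
        have h1 := hφ hij
        rw [Prod.Lex.toLex_le_toLex] at h1
        show (φ i).1 ≤ (φ j).1
        rcases h1 with h1 | h1
        · exact h1.le
        · exact h1.1.le
      · intro i h0
        have := hg i h0
        show decide ((φ i).2 < 0) = false
        simp [this]
      · intro i j hij hf
        change (φ i).1 = (φ j).1 at hf
        have h1 := hφ hij.le
        rw [Prod.Lex.toLex_le_toLex] at h1
        have h2 : (φ i).2 ≤ (φ j).2 := by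
          rcases h1 with h1 | h1
          · exact absurd hf h1.ne
          · exact h1.2
        have hmono1 : ∀ a b : Fin n, (φ a).1 < (φ b).1 → a < b := by
          intro a b hab
          by_contra hc
          have h3 := hφ (not_lt.1 hc)
          rw [Prod.Lex.toLex_le_toLex] at h3
          rcases h3 with h3 | h3
          · omega
          · omega
        unfold sv
        show (if decide ((φ i).2 < 0) = true then (-1 : ℤ) else 1) * (((σ i : ℕ) : ℤ) + 1) <
          (if decide ((φ j).2 < 0) = true then (-1 : ℤ) else 1) * (((σ j : ℕ) : ℤ) + 1)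
        simp only [decide_eq_true_eq]
        by_cases hi : (φ i).2 < 0
        · by_cases hj : (φ j).2 < 0
          · rw [if_pos hi, if_pos hj]
            have h4 : σ j < σ i := by
              rcases h2.lt_or_eq with h3 | h3
              · apply hmono1
                rw [hfσ, hfσ]
                omega
              · exact hσ.neg i j hij (Prod.ext hf h3) hi
            have h5 : (σ j : ℕ) < (σ i : ℕ) := h4
            omega
          · rw [if_pos hi, if_neg hj]
            omega
        · by_cases hj : (φ j).2 < 0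
          · omega
          · rw [if_neg hi, if_neg hj]
            have h4 : σ i < σ j := by
              rcases h2.lt_or_eq with h3 | h3
              · apply hmono1
                rw [hfσ, hfσ]
                omega
              · exact hσ.pos i j hij (Prod.ext hf h3) (not_lt.1 hi)
            have h5 : (σ i : ℕ) < (σ j : ℕ) := h4
            omega
    refine ⟨p, by rw [mem_coe]; exact hp, ?_⟩
    have hphi : phi p = φ := by
      funext i
      show ((φ i).1, if decide ((φ i).2 < 0) = true then -(((φ (σ i)).1 : ℕ) : ℤ) else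
        (((φ (σ i)).1 : ℕ) : ℤ)) = φ i
      rw [hfσ]
      simp only [decide_eq_true_eq]
      apply Prod.ext
      · rfl
      · show (if (φ i).2 < 0 then -(((φ i).2.natAbs : ℕ) : ℤ) else (((φ i).2.natAbs : ℕ) : ℤ)) =
          (φ i).2
        split_ifs <;> omega
    show Multiset.toFinsupp (mv (phi p)) = m
    rw [hphi, hφs, hsm]

end Pool.Agent.J4.H46.InvB
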