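import Mathlib
import Pool.Agent.J4.H46.InvB.Labels

/-!
# A recurrence for the number of invariant multisets
-/

set_option autoImplicit false

namespace Pool.Agent.J4.H46.InvB

open PowerSeries

theorem multichoose_rec (p j : ℕ) :
    ((j : ℚ) + 1) * (Nat.multichoose p (j + 1) : ℚ) = (p + j) * (Nat.multichoose p j : ℚ) := by
  rw [Nat.multichoose_eq, Nat.multichoose_eq]
  rcases p with _ | p
  · rcases j with _ | j
    · simp
    · have h1 : (0 + (j + 1 + 1) - 1).choose (j + 1 + 1) = 0 := Nat.choose_eq_zero_of_lt (by omega)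
      have h2 : (0 + (j + 1) - 1).choose (j + 1) = 0 := Nat.choose_eq_zero_of_lt (by omega)
      rw [h1, h2]
      simp
  · have e1 : p + 1 + (j + 1) - 1 = p + j + 1 := by omega
    have e2 : p + 1 + j - 1 = p + j := by omega
    rw [e1, e2]
    have h : (p + j + 1) * (p + j).choose j = (p + j + 1).choose (j + 1) * (j + 1) :=
      Nat.add_one_mul_choose_eq (p + j) j
    have h' : ((p : ℚ) + j + 1) * ((p + j).choose j : ℚ) = ((p + j + 1).choose (j + 1) : ℚ) * (j + 1) := by
      exact_mod_cast h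
    push_cast
    linarith

noncomputable def serA (p : ℕ) : ℚ⟦X⟧ := mk (fun j => (Nat.multichoose p j : ℚ))
noncomputable def serB (q : ℕ) : ℚ⟦X⟧ :=
  mk (fun j => if Even j then (Nat.multichoose q (j / 2) : ℚ) else 0)

theorem coeff_AB (p q n : ℕ) : coeff n (serA p * serB q) = (cnt p q n : ℚ) := by
  rw [coeff_mul, cnt, Nat.cast_sum]
  apply Finset.sum_congr rfl
  intro ij _
  rw [serA, serB, coeff_mk, coeff_mk]
  split_ifs <;> simp

theorem serA_deriv (p : ℕ) : (1 - X) * d⁄dX ℚ (serA p) = C (p : ℚ) * serA p := by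
  ext n
  rw [sub_mul, one_mul, map_sub, coeff_C_mul, coeff_derivative]
  rcases n with _ | n
  · have h := multichoose_rec p 0
    simp only [serA, coeff_mk, coeff_zero_X_mul]
    push_cast at *
    linarith
  · have h := multichoose_rec p (n + 1)
    rw [coeff_succ_X_mul, coeff_derivative]
    simp only [serA, coeff_mk]
    push_cast at *
    linarith

theorem serB_deriv (q : ℕ) : (1 - X ^ 2) * d⁄dX ℚ (serB q) = C (2 * q : ℚ) * X * serB q := by
  ext n
  rw [sub_mul, one_mul, map_sub, mul_assoc, coeff_C_mul, coeff_derivative]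
  rcases n with _ | _ | n
  · simp [serB, coeff_mk, sq, mul_assoc]
  · rw [show (X : ℚ⟦X⟧) ^ 2 * d⁄dX ℚ (serB q) = X * (X * d⁄dX ℚ (serB q)) by ring,
      coeff_succ_X_mul, coeff_succ_X_mul]
    have h := multichoose_rec q 0
    simp only [serB, coeff_mk, coeff_zero_X_mul]
    norm_num at *
    linarith
  · rw [show (X : ℚ⟦X⟧) ^ 2 * d⁄dX ℚ (serB q) = X * (X * d⁄dX ℚ (serB q)) by ring,
      coeff_succ_X_mul, coeff_succ_X_mul, coeff_succ_X_mul, coeff_derivative]
    simp only [serB, coeff_mk]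
    rcases Nat.even_or_odd n with h | h
    · rw [if_neg (by rw [Nat.even_iff] at *; omega), if_neg (by rw [Nat.even_iff] at *; omega)]
      simp
    · obtain ⟨k, rfl⟩ := h
      have e1 : Even (2 * k + 1 + 1 + 1 + 1) := ⟨k + 2, by ring⟩
      have e2 : Even (2 * k + 1 + 1) := ⟨k + 1, by ring⟩
      have e3 : (2 * k + 1 + 1 + 1 + 1) / 2 = k + 1 + 1 := by omega
      have e4 : (2 * k + 1 + 1) / 2 = k + 1 := by omega
      rw [if_pos e1, if_pos e2, e3, e4]
      have h := multichoose_rec q (k + 1)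
      push_cast at *
      linarith

theorem cnt_rec (p q n : ℕ) : ((n : ℚ) + 2) * (cnt p q (n + 2) : ℚ) =
    p * (cnt p q (n + 1) : ℚ) + (p + 2 * q + n) * (cnt p q n : ℚ) := by
  have hA := serA_deriv p
  have hB := serB_deriv q
  have h : (1 - X ^ 2) * d⁄dX ℚ (serA p * serB q) =
      (C (p : ℚ) * (1 + X) + C (2 * q : ℚ) * X) * (serA p * serB q) := by
    rw [Derivation.leibniz, smul_eq_mul, smul_eq_mul]
    linear_combination (1 + X) * serB q * hA + serA p * hB
  have h2 := congrArg (coeff (n + 1)) h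
  have h3 : (C (p : ℚ) * (1 + X) + C (2 * q : ℚ) * X) * (serA p * serB q) =
      C (p : ℚ) * (serA p * serB q) + C ((p : ℚ) + 2 * q) * (X * (serA p * serB q)) := by
    rw [map_add]
    ring
  rw [h3, sub_mul, one_mul, map_sub, map_add, coeff_C_mul, coeff_C_mul, coeff_succ_X_mul,
    coeff_derivative, coeff_AB, coeff_AB, coeff_AB] at h2
  rcases n with _ | n
  · rw [show (X : ℚ⟦X⟧) ^ 2 * d⁄dX ℚ (serA p * serB q) = X * (X * d⁄dX ℚ (serA p * serB q)) by ring,
      coeff_succ_X_mul, coeff_zero_X_mul] at h2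
    push_cast at *
    linarith
  · rw [show (X : ℚ⟦X⟧) ^ 2 * d⁄dX ℚ (serA p * serB q) = X * (X * d⁄dX ℚ (serA p * serB q)) by ring,
      coeff_succ_X_mul, coeff_succ_X_mul, coeff_derivative, coeff_AB] at h2
    push_cast at *
    linarith

theorem cnt_zero (p q : ℕ) : cnt p q 0 = 1 := by
  simp [cnt]

theorem cnt_one (p q : ℕ) : cnt p q 1 = p := by
  rw [cnt]
  have : (Finset.HasAntidiagonal.antidiagonal 1 : Finset (ℕ × ℕ)) = {(0, 1), (1, 0)} := by decide
  rw [this]
  simp

end Pool.Agent.J4.H46.InvB
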