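import Mathlib
import Pool.Agent.J4.H46.InvB.CardT

/-!
# The number of sequences compatible with a signed permutation
-/

set_option autoImplicit false

namespace Pool.Agent.J4.H46.InvB

open Finset

variable {n : ℕ}

/-- the number of monotone maps -/
theorem card_monotone (n m : ℕ) :
    (univ.filter (fun g : Fin n → Fin (m + 1) => Monotone g)).card = (n + m).choose n := by
  classical
  have h : (univ.filter (fun g : Fin n → Fin (m + 1) => Monotone g)).card =
      Fintype.card (Sym (Fin (m + 1)) n) := by
    rw [← Finset.card_univ]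
    apply card_nbij (fun g => (⟨mv g, by simp [mv]⟩ : Sym (Fin (m + 1)) n))
    · intro g _
      exact Finset.mem_coe.2 (Finset.mem_univ (α := Sym (Fin (m + 1)) n) _)
    · intro g hg g' hg' h
      rw [mem_coe, mem_filter] at hg hg'
      exact mono_unique hg.2 hg'.2 (congrArg Subtype.val h)
    · intro s _
      obtain ⟨φ, h1, h2⟩ := mono_exists s.1 s.2
      exact ⟨φ, by simpa using h1, Subtype.ext h2⟩
  rw [h, Sym.card_sym_eq_choose, Fintype.card_fin]
  congr 1
  omega

/-- the set of descents -/
def Dset (w : Wn n) (j : Fin n) : Prop :=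
  (j.val = 0 ∧ w.2 j = true) ∨ ∃ i : Fin n, j.val = i.val + 1 ∧ sv w j < sv w i

theorem sv_inj {w : Wn n} {i j : Fin n} (h : sv w i = sv w j) : i = j := by
  unfold sv at h
  apply w.1.injective
  apply Fin.ext
  split_ifs at h <;> omega

open Classical in
/-- the number of descents up to `j` -/
noncomputable def DD (w : Wn n) (j : Fin n) : ℕ := (univ.filter (fun k => k ≤ j ∧ Dset w k)).card

open Classical in
noncomputable def des (w : Wn n) : ℕ := (univ.filter (fun k => Dset w k)).card

theorem DD_mono (w : Wn n) : Monotone (DD w) := by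
  classical
  intro i j hij
  apply card_le_card
  intro k hk
  rw [mem_filter] at hk ⊢
  exact ⟨hk.1, hk.2.1.trans hij, hk.2.2⟩

theorem DD_le (w : Wn n) (j : Fin n) : DD w j ≤ des w := by
  classical
  apply card_le_card
  intro k hk
  rw [mem_filter] at hk ⊢
  exact ⟨hk.1, hk.2.2⟩

theorem DD_last (w : Wn n) (j : Fin n) (hj : j.val + 1 = n) : DD w j = des w := by
  classical
  unfold DD des
  congr 1
  apply filter_congr
  intro k _
  constructor
  · exact fun h => h.2
  · intro h
    refine ⟨?_, h⟩
    rw [Fin.le_def]
    have := k.2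
    omega

/-- step -/
theorem DD_succ_of {w : Wn n} {i j : Fin n} (h : j.val = i.val + 1) (hd : Dset w j) :
    DD w j = DD w i + 1 := by
  classical
  unfold DD
  have : (univ.filter (fun k => k ≤ j ∧ Dset w k)) =
      insert j (univ.filter (fun k => k ≤ i ∧ Dset w k)) := by
    ext k
    simp only [mem_filter, mem_univ, true_and, mem_insert, Fin.le_def, Fin.ext_iff]
    constructor
    · rintro ⟨h1, h2⟩
      rcases h1.lt_or_eq with h3 | h3
      · exact Or.inr ⟨by omega, h2⟩
      · exact Or.inl h3
    · rintro (h1 | h1)
      · have : k = j := Fin.ext h1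
        subst this
        exact ⟨le_rfl, hd⟩
      · exact ⟨by omega, h1.2⟩
  rw [this, card_insert_of_notMem]
  simp only [mem_filter, mem_univ, true_and, Fin.le_def, not_and]
  intro h1
  omega

theorem DD_succ_not {w : Wn n} {i j : Fin n} (h : j.val = i.val + 1) (hd : ¬ Dset w j) :
    DD w j = DD w i := by
  classical
  unfold DD
  congr 1
  apply filter_congr
  intro k _
  simp only [Fin.le_def]
  constructor
  · rintro ⟨h1, h2⟩
    refine ⟨?_, h2⟩
    rcases h1.lt_or_eq with h3 | h3
    · omega
    · have : k = j := Fin.ext h3
      subst this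
      exact absurd h2 hd
  · rintro ⟨h1, h2⟩
    exact ⟨by omega, h2⟩

theorem DD_zero_of {w : Wn n} {j : Fin n} (h : j.val = 0) (hd : Dset w j) : DD w j = 1 := by
  classical
  unfold DD
  have : (univ.filter (fun k => k ≤ j ∧ Dset w k)) = {j} := by
    ext k
    simp only [mem_filter, mem_univ, true_and, mem_singleton, Fin.le_def, Fin.ext_iff]
    constructor
    · rintro ⟨h1, h2⟩
      omega
    · intro h1
      have : k = j := Fin.ext h1
      subst this
      exact ⟨le_rfl, hd⟩
  rw [this, card_singleton]

theorem DD_zero_not {w : Wn n} {j : Fin n} (h : j.val = 0) (hd : ¬ Dset w j) : DD w j = 0 := by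
  classical
  unfold DD
  rw [card_eq_zero, filter_eq_empty_iff]
  rintro k _ ⟨h1, h2⟩
  rw [Fin.le_def] at h1
  have : k = j := Fin.ext (by omega)
  subst this
  exact hd h2

/-- between positions with the same number of descents `sv` increases -/
theorem sv_chain {w : Wn n} (hw : IsInv w) : ∀ (k : ℕ) (i j : Fin n), j.val = i.val + k + 1 →
    DD w i = DD w j → sv w i < sv w j
  | 0, i, j, h, hD => by
    by_contra hc
    have h1 : sv w j < sv w i := by
      rcases (not_lt.1 hc).lt_or_eq with h1 | h1
      · exact h1
      · have := sv_inj h1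
        subst this
        omega
    have h2 : Dset w j := Or.inr ⟨i, by omega, h1⟩
    have h3 := DD_succ_of (i := i) (by omega) h2
    omega
  | (k + 1), i, j, h, hD => by
    have hm : i.val + k + 1 < n := by
      have := j.2
      omega
    set m : Fin n := ⟨i.val + k + 1, hm⟩ with hmdef
    have h1 : DD w i ≤ DD w m := DD_mono w (by rw [Fin.le_def]; simp [hmdef]; omega)
    have h2 : DD w m ≤ DD w j := DD_mono w (by rw [Fin.le_def]; simp [hmdef]; omega)
    have h3 := sv_chain hw k i m rfl (by omega)
    have h4 := sv_chain hw 0 m j (by simp [hmdef]; omega) (by omega)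
    exact h3.trans h4

theorem compat_of {w : Wn n} (hw : IsInv w) {g : Fin n → ℕ} (hg : Monotone g) :
    Compat w (fun i => g i + DD w i) := by
  refine ⟨?_, ?_, ?_⟩
  · intro i j hij
    exact add_le_add (hg hij) (DD_mono w hij)
  · intro i h0
    simp only [Nat.add_eq_zero_iff] at h0
    have hn : 0 < n := lt_of_le_of_lt (Nat.zero_le _) i.2
    set z : Fin n := ⟨0, hn⟩ with hz
    have h1 : DD w z ≤ DD w i := DD_mono w (by rw [Fin.le_def]; simp [hz])
    have h2 : ¬ Dset w z := by
      intro hd
      have := DD_zero_of rfl hd
      omega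
    have h3 : w.2 z = false := by
      by_contra h
      exact h2 (Or.inl ⟨rfl, by simpa using h⟩)
    rcases Nat.eq_zero_or_pos i.val with h4 | h4
    · have : i = z := Fin.ext h4
      rw [this]; exact h3
    · have h5 := sv_chain hw (i.val - 1) z i (by simp [hz]; omega) (by omega)
      by_contra h
      simp only [Bool.not_eq_false] at h
      unfold sv at h5
      rw [h3, h] at h5
      simp only [Bool.false_eq_true, if_false, if_true] at h5
      omega
  · intro i j hij hf
    have h1 := hg hij.le
    have h2 := DD_mono w hij.le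
    exact sv_chain hw (j.val - i.val - 1) i j (by rw [Fin.lt_def] at hij; omega) (by omega)

theorem step_of_compat {w : Wn n} {f : Fin n → ℕ} (hf : Compat w f) {i j : Fin n}
    (h : j.val = i.val + 1) : f i + DD w j ≤ f j + DD w i := by
  have h1 : i ≤ j := by rw [Fin.le_def]; omega
  have h2 := hf.mono h1
  by_cases hd : Dset w j
  · rw [DD_succ_of h hd]
    have h3 : f i ≠ f j := by
      intro he
      have h4 := hf.incr i j (by rw [Fin.lt_def]; omega) he
      rcases hd with hd | ⟨k, hk, hk2⟩
      · omega
      · have : k = i := Fin.ext (by omega)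
        subst this
        exact absurd h4 (not_lt.2 hk2.le)
    omega
  · rw [DD_succ_not h hd]
    omega

theorem steps_of_compat {w : Wn n} {f : Fin n → ℕ} (hf : Compat w f) : ∀ (k : ℕ) (i j : Fin n),
    j.val = i.val + k → f i + DD w j ≤ f j + DD w i
  | 0, i, j, h => by
    have : i = j := Fin.ext (by omega)
    rw [this]
  | (k + 1), i, j, h => by
    have hm : i.val + k < n := by
      have := j.2
      omega
    set m : Fin n := ⟨i.val + k, hm⟩ with hmdef
    have h3 := steps_of_compat hf k i m rfl
    have h4 := step_of_compat hf (i := m) (j := j) (by simp [hmdef]; omega)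
    omega

theorem DD_le_of_compat {w : Wn n} {f : Fin n → ℕ} (hf : Compat w f) (j : Fin n) :
    DD w j ≤ f j := by
  have hn : 0 < n := lt_of_le_of_lt (Nat.zero_le _) j.2
  set z : Fin n := ⟨0, hn⟩ with hz
  have h1 := steps_of_compat hf j.val z j (by simp [hz])
  have h2 : DD w z ≤ f z := by
    by_cases hd : Dset w z
    · rw [DD_zero_of rfl hd]
      rcases hd with hd | ⟨k, hk, _⟩
      · by_contra hc
        have := hf.zero z (by omega)
        rw [hd.2] at this
        exact absurd this (by decide)
      · simp [hz] at hk
    · rw [DD_zero_not rfl hd]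
      exact Nat.zero_le _
  omega

theorem card_compat {w : Wn n} (hw : IsInv w) (r : ℕ) [DecidablePred fun f : Fin n → Fin (r + 1) =>
      Compat w (fun i => (f i : ℕ))] :
    (univ.filter (fun f : Fin n → Fin (r + 1) => Compat w (fun i => (f i : ℕ)))).card =
      if des w ≤ r then (n + (r - des w)).choose n else 0 := by
  classical
  split_ifs with hd
  · rw [← card_monotone]
    symm
    apply card_nbij (fun g i => (⟨(g i : ℕ) + DD w i, by
        have h1 := (g i).2
        have h2 := DD_le w i
        omega⟩ : Fin (r + 1)))
    · intro g hg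
      rw [mem_coe, mem_filter] at hg ⊢
      refine ⟨mem_univ _, ?_⟩
      exact compat_of hw (g := fun i => (g i : ℕ)) (fun i j hij => hg.2 hij)
    · intro g _ g' _ h
      funext i
      have := congrArg Fin.val (congrFun h i)
      simp only [Nat.add_right_cancel_iff] at this
      exact Fin.ext this
    · intro f hf
      rw [mem_coe, mem_filter] at hf
      obtain ⟨_, hf⟩ := hf
      have h1 := DD_le_of_compat hf
      have h2 : ∀ i, (f i : ℕ) - DD w i < r - des w + 1 := by
        intro i
        have hn : 0 < n := lt_of_le_of_lt (Nat.zero_le _) i.2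
        set l : Fin n := ⟨n - 1, by omega⟩ with hl
        have h3 := steps_of_compat hf (n - 1 - i.val) i l (by
          have := i.2
          simp [hl]; omega)
        have h4 := DD_last w l (by simp [hl]; omega)
        have h5 := (f l).2
        have h6 := h1 i
        omega
      refine ⟨fun i => ⟨(f i : ℕ) - DD w i, h2 i⟩, ?_, ?_⟩
      · rw [mem_coe, mem_filter]
        refine ⟨mem_univ _, ?_⟩
        intro i j hij
        show (f i : ℕ) - DD w i ≤ (f j : ℕ) - DD w j
        have h3 := steps_of_compat hf (j.val - i.val) i j (by rw [Fin.le_def] at hij; omega)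
        have h4 := h1 i
        have h5 := h1 j
        omega
      · funext i
        apply Fin.ext
        have h4 := h1 i
        exact Nat.sub_add_cancel h4
  · rw [card_eq_zero, filter_eq_empty_iff]
    intro f _ hf
    rcases Nat.eq_zero_or_pos n with h0 | hn
    · subst h0
      apply hd
      unfold des
      simp
    · set l : Fin n := ⟨n - 1, by omega⟩ with hl
      have h4 := DD_last w l (by simp [hl]; omega)
      have h5 := (f l).2
      have h6 := DD_le_of_compat hf l
      omega

open Classical in
theorem sum_compat (n r : ℕ) : (T n r).card =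
    ∑ w ∈ univ.filter (fun w : Wn n => IsInv w),
      if des w ≤ r then (n + (r - des w)).choose n else 0 := by
  rw [card_eq_sum_card_fiberwise (f := Prod.fst) (t := univ.filter (fun w : Wn n => IsInv w))]
  · apply sum_congr rfl
    intro w hw
    rw [mem_filter] at hw
    rw [← card_compat hw.2 r]
    apply card_nbij (fun p => p.2)
    · intro p hp
      rw [mem_coe, mem_filter] at hp
      rw [mem_coe, mem_filter]
      refine ⟨mem_univ _, ?_⟩
      have := (mem_T.1 hp.1).2
      rw [hp.2] at this
      exact this
    · intro p hp q hq h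
      rw [mem_coe, mem_filter] at hp hq
      exact Prod.ext (hp.2.trans hq.2.symm) h
    · intro f hf
      rw [mem_coe, mem_filter] at hf
      refine ⟨(w, f), ?_, rfl⟩
      rw [mem_coe, mem_filter]
      exact ⟨mem_T.2 ⟨hw.2, hf.2⟩, rfl⟩
  · intro p hp
    rw [mem_coe] at hp
    rw [mem_coe, mem_filter]
    exact ⟨mem_univ _, (mem_T.1 hp).1⟩

end Pool.Agent.J4.H46.InvB
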