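import Mathlib

/-!
# The gamma coefficients of the descent polynomial on involutions of type B

`gam n i` is defined by a recurrence in `n`; here we show that it is nonnegative and vanishes for
`n < 2 i`.
-/

set_option autoImplicit false

namespace Pool.Agent.J4.H46.InvB

/-- one step of the recurrence; `g1`, `g2` are the coefficients for `n - 1` and `n - 2` -/
def step (n : ℚ) (g1 g2 : ℕ → ℚ) (i : ℕ) : ℚ :=
  ((2 * i + 1) * g1 i + (if 1 ≤ i then 4 * (n + 1 - 2 * i) * g1 (i - 1) else 0)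
    + (2 * i ^ 2 + 2 * i + n - 1) * g2 i
    + (if 1 ≤ i then 4 * ((2 * i - 1) * (n - 2 * i) - (i - 1)) * g2 (i - 1) else 0)
    + (if 2 ≤ i then 8 * (n + 2 - 2 * i) * (n + 1 - 2 * i) * g2 (i - 2) else 0)) / n

/-- the gamma coefficients -/
def gam : ℕ → ℕ → ℚ
  | 0 => fun i => if i = 0 then 1 else 0
  | 1 => step 1 (fun i => if i = 0 then 1 else 0) (fun _ => 0)
  | (n + 2) => step (n + 2) (gam (n + 1)) (gam n)

theorem gam_succ_succ (n i : ℕ) : gam (n + 2) i = step (n + 2) (gam (n + 1)) (gam n) i := by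
  rw [gam]

theorem gam_zero (i : ℕ) : gam 0 i = if i = 0 then 1 else 0 := by rw [gam]

theorem gam_one (i : ℕ) : gam 1 i = if i = 0 then 1 else 0 := by
  rw [gam]
  rcases i with _ | _ | i
  · simp [step]
  · simp [step]; norm_num
  · simp [step]

theorem gam_eq_zero : ∀ (n i : ℕ), n < 2 * i → gam n i = 0
  | 0, i, h => by rw [gam_zero, if_neg (by omega)]
  | 1, i, h => by rw [gam_one, if_neg (by omega)]
  | (n + 2), i, h => by
    have h1 : gam (n + 1) i = 0 := gam_eq_zero (n + 1) i (by omega)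
    have h2 : gam n i = 0 := gam_eq_zero n i (by omega)
    have h2' : gam n (i - 1) = 0 := gam_eq_zero n (i - 1) (by omega)
    rw [gam_succ_succ, step, h1, h2, h2']
    rw [if_pos (by omega : 1 ≤ i), if_pos (by omega : 1 ≤ i)]
    have e1 : 4 * ((n : ℚ) + 2 + 1 - 2 * i) * gam (n + 1) (i - 1) = 0 := by
      rcases Nat.lt_or_ge (n + 1) (2 * (i - 1)) with h3 | h3
      · rw [gam_eq_zero (n + 1) (i - 1) h3, mul_zero]
      · have h4 : 2 * i = n + 3 := by omega
        have h5 : (2 : ℚ) * i = n + 3 := by exact_mod_cast h4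
        rw [h5]; ring
    have e2 : (if 2 ≤ i then 8 * ((n : ℚ) + 2 + 2 - 2 * i) * (n + 2 + 1 - 2 * i) * gam n (i - 2)
        else 0) = 0 := by
      rcases Nat.lt_or_ge i 2 with h3 | h3
      · rw [if_neg (by omega)]
      · rw [if_pos h3]
        rcases Nat.lt_or_ge n (2 * (i - 2)) with h4 | h4
        · rw [gam_eq_zero n (i - 2) h4, mul_zero]
        · have h5 : 2 * i = n + 3 ∨ 2 * i = n + 4 := by omega
          rcases h5 with h5 | h5
          · have h6 : (2 : ℚ) * i = n + 3 := by exact_mod_cast h5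
            rw [h6]; ring
          · have h6 : (2 : ℚ) * i = n + 4 := by exact_mod_cast h5
            rw [h6]; ring
    rw [e1, e2]
    simp

theorem gam_top (m : ℕ) (hm : 1 ≤ m) : 2 * ((m : ℚ) + 1) * gam (2 * m + 2) (m + 1) =
    4 * gam (2 * m + 1) m - 4 * m * gam (2 * m) m + 16 * gam (2 * m) (m - 1) := by
  rw [gam_succ_succ, step, gam_eq_zero (2 * m + 1) (m + 1) (by omega),
    gam_eq_zero (2 * m) (m + 1) (by omega)]
  rw [if_pos (by omega), if_pos (by omega), if_pos (by omega)]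
  have e1 : m + 1 - 1 = m := by omega
  have e2 : m + 1 - 2 = m - 1 := by omega
  rw [e1, e2]
  push_cast
  have h : (2 * (m : ℚ) + 2) ≠ 0 := by positivity
  field_simp
  ring

theorem gam_sub (m : ℕ) (hm : 2 ≤ m) : 2 * (m : ℚ) * gam (2 * m) (m - 1) =
    (2 * m - 1) * gam (2 * m - 1) (m - 1) + 12 * gam (2 * m - 1) (m - 2)
    + (2 * (m : ℚ) ^ 2 - 1) * gam (2 * m - 2) (m - 1) + 4 * (3 * m - 4) * gam (2 * m - 2) (m - 2)
    + (if 3 ≤ m then 96 * gam (2 * m - 2) (m - 3) else 0) := by
  obtain ⟨k, rfl⟩ : ∃ k, m = k + 2 := ⟨m - 2, by omega⟩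
  have e0 : 2 * (k + 2) = (2 * k + 2) + 2 := by ring
  have e1 : k + 2 - 1 = k + 1 := by omega
  have e2 : 2 * (k + 2) - 1 = 2 * k + 2 + 1 := by omega
  have e3 : 2 * (k + 2) - 2 = 2 * k + 2 := by omega
  have e4 : k + 2 - 2 = k := by omega
  have e5 : k + 2 - 3 = k - 1 := by omega
  rw [e1, e2, e3, e4, e5, e0, gam_succ_succ, step]
  have e6 : k + 1 - 1 = k := by omega
  have e7 : k + 1 - 2 = k - 1 := by omega
  rw [e6, e7, if_pos (by omega), if_pos (by omega)]
  have h : (2 * (k : ℚ) + 4) ≠ 0 := by positivity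
  push_cast
  rcases Nat.eq_zero_or_pos k with hk | hk
  · subst hk
    simp
    ring
  · rw [if_pos (by omega), if_pos (by omega)]
    have h' : (2 * (k : ℚ) + 2 + 2) ≠ 0 := by positivity
    field_simp
    ring

theorem gam_nonneg : ∀ (n i : ℕ), 0 ≤ gam n i
  | 0, i => by rw [gam_zero]; split_ifs <;> norm_num
  | 1, i => by rw [gam_one]; split_ifs <;> norm_num
  | (n + 2), i => by
    rcases Nat.lt_or_ge (n + 2) (2 * i) with h0 | h0
    · rw [gam_eq_zero _ _ h0]
    rcases Nat.lt_or_ge (2 * i) (n + 2) with h1 | h1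
    · rw [gam_succ_succ, step]
      have hn : (2 : ℚ) * i + 1 ≤ n + 2 := by exact_mod_cast h1
      have hi : (0 : ℚ) ≤ i := by positivity
      have a1 := gam_nonneg (n + 1) i
      have a2 := gam_nonneg (n + 1) (i - 1)
      have a3 := gam_nonneg n i
      have a4 := gam_nonneg n (i - 1)
      have a5 := gam_nonneg n (i - 2)
      apply div_nonneg _ (by positivity)
      have b1 : (0 : ℚ) ≤ (2 * i + 1) * gam (n + 1) i := by positivity
      have b2 : (0 : ℚ) ≤ (if 1 ≤ i then 4 * ((n : ℚ) + 2 + 1 - 2 * i) * gam (n + 1) (i - 1)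
          else 0) := by
        split_ifs
        · have : (0 : ℚ) ≤ n + 2 + 1 - 2 * i := by linarith
          positivity
        · exact le_rfl
      have b3 : (0 : ℚ) ≤ (2 * i ^ 2 + 2 * i + (n + 2) - 1) * gam n i := by
        have : (0 : ℚ) ≤ 2 * i ^ 2 + 2 * i + (n + 2) - 1 := by nlinarith [sq_nonneg (i : ℚ)]
        positivity
      have b4 : (0 : ℚ) ≤ (if 1 ≤ i then 4 * ((2 * (i : ℚ) - 1) * (n + 2 - 2 * i) - (i - 1)) *
          gam n (i - 1) else 0) := by
        split_ifs with h2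
        · have h3 : (1 : ℚ) ≤ i := by exact_mod_cast h2
          have : (0 : ℚ) ≤ (2 * (i : ℚ) - 1) * (n + 2 - 2 * i) - (i - 1) := by nlinarith
          positivity
        · exact le_rfl
      have b5 : (0 : ℚ) ≤ (if 2 ≤ i then 8 * ((n : ℚ) + 2 + 2 - 2 * i) * (n + 2 + 1 - 2 * i) *
          gam n (i - 2) else 0) := by
        split_ifs with h2
        · have c1 : (0 : ℚ) ≤ n + 2 + 2 - 2 * i := by linarith
          have c2 : (0 : ℚ) ≤ n + 2 + 1 - 2 * i := by linarith
          positivity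
        · exact le_rfl
      linarith
    · -- n + 2 = 2 i
      obtain ⟨m, rfl⟩ : ∃ m, i = m + 1 := ⟨i - 1, by omega⟩
      have hnm : n = 2 * m := by omega
      subst hnm
      rcases Nat.lt_or_ge m 1 with hm | hm
      · have : m = 0 := by omega
        subst this
        norm_num [gam_succ_succ, step, gam_one, gam_zero]
      have ht := gam_top m hm
      have a1 := gam_nonneg (2 * m + 1) m
      have a2 := gam_nonneg (2 * m) (m - 1)
      have hm0 : (0 : ℚ) < 2 * ((m : ℚ) + 1) := by positivity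
      suffices h : 0 ≤ 2 * ((m : ℚ) + 1) * gam (2 * m + 2) (m + 1) by
        exact nonneg_of_mul_nonneg_right h hm0
      rw [ht]
      rcases Nat.lt_or_ge m 2 with hm2 | hm2
      · have : m = 1 := by omega
        subst this
        norm_num [gam_succ_succ, step, gam_one, gam_zero]
      -- the inequality 4 γ(2m, m-1) ≥ m γ(2m, m)
      obtain ⟨k, rfl⟩ : ∃ k, m = k + 1 := ⟨m - 1, by omega⟩
      have hk : 1 ≤ k := by omega
      have ht2 := gam_top k hk
      have hs := gam_sub (k + 1) (by omega)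
      have e1 : k + 1 - 1 = k := by omega
      have e2 : 2 * (k + 1) - 1 = 2 * k + 1 := by omega
      have e3 : 2 * (k + 1) - 2 = 2 * k := by omega
      have e4 : k + 1 - 2 = k - 1 := by omega
      have e5 : 2 * (k + 1) = 2 * k + 2 := by ring
      rw [e1, e2, e3, e4, e5] at hs
      rw [e1, e5] at *
      have c1 := gam_nonneg (2 * k + 1) k
      have c2 := gam_nonneg (2 * k + 1) (k - 1)
      have c3 := gam_nonneg (2 * k) k
      have c4 := gam_nonneg (2 * k) (k - 1)
      have c5 : (0 : ℚ) ≤ (if 3 ≤ k + 1 then 96 * gam (2 * k) (k + 1 - 3) else 0) := by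
        split_ifs
        · have := gam_nonneg (2 * k) (k + 1 - 3)
          positivity
        · exact le_rfl
      have hk1 : (1 : ℚ) ≤ k := by exact_mod_cast hk
      push_cast at hs ht2 ⊢
      set A := gam (2 * k + 2) (k + 1)
      set B := gam (2 * k + 2) k
      set O1 := gam (2 * k + 1) k
      set O2 := gam (2 * k + 1) (k - 1)
      set E1 := gam (2 * k) k
      set E2 := gam (2 * k) (k - 1)
      have d1 : 2 * ((k : ℚ) + 1) * A ≤ 4 * O1 + 16 * E2 := by
        have : 0 ≤ 4 * (k : ℚ) * E1 := by positivity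
        linarith
      have d2 : (2 * (k : ℚ) + 1) * O1 + 4 * (3 * k - 1) * E2 ≤ 2 * ((k : ℚ) + 1) * B := by
        have f1 : (0 : ℚ) ≤ (2 * ((k : ℚ) + 1) ^ 2 - 1) * E1 := by
          have : (0 : ℚ) ≤ 2 * ((k : ℚ) + 1) ^ 2 - 1 := by nlinarith
          positivity
        have c5' : (0 : ℚ) ≤ (if 2 ≤ k then 96 * gam (2 * k) (k - 2) else 0) := by
          split_ifs
          · have := gam_nonneg (2 * k) (k - 2)
            positivity
          · exact le_rfl
        nlinarith
      have d3 : ((k : ℚ) + 1) * A ≤ 4 * B := by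
        have hk2 : (0 : ℚ) < 2 * ((k : ℚ) + 1) := by positivity
        have g1 : ((k : ℚ) + 1) * (2 * ((k : ℚ) + 1) * A) ≤ ((k : ℚ) + 1) * (4 * O1 + 16 * E2) :=
          mul_le_mul_of_nonneg_left d1 (by positivity)
        have g2 : ((k : ℚ) + 1) * (4 * O1 + 16 * E2) ≤
            4 * ((2 * (k : ℚ) + 1) * O1 + 4 * (3 * k - 1) * E2) := by
          nlinarith [mul_nonneg (by linarith : (0 : ℚ) ≤ k) c1,
            mul_nonneg (by linarith : (0 : ℚ) ≤ (k : ℚ) - 1) c4]
        have g3 : 2 * ((k : ℚ) + 1) * (((k : ℚ) + 1) * A) ≤ 2 * ((k : ℚ) + 1) * (4 * B) := by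
          nlinarith
        exact le_of_mul_le_mul_left g3 hk2
      have a1' := gam_nonneg (2 * k + 2 + 1) (k + 1)
      nlinarith

end Pool.Agent.J4.H46.InvB
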