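import Mathlib
import Pool.Agent.J4.H46.InvB.Gam

/-!
# The polynomials with gamma coefficients `gam n i` and their generating function
-/

set_option autoImplicit false

namespace Pool.Agent.J4.H46.InvB

open Polynomial

/-- the basis polynomials -/
noncomputable def e (n i : ℕ) : ℚ[X] := X ^ i * (1 + X) ^ (n - 2 * i)

noncomputable def Q (n : ℕ) : ℚ[X] := ∑ i ∈ Finset.range (n / 2 + 1), C (gam n i) * e n i

theorem Q_eq (n N : ℕ) (h : n / 2 + 1 ≤ N) :
    Q n = ∑ i ∈ Finset.range N, C (gam n i) * e n i := by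
  unfold Q
  apply Finset.sum_subset
  · intro x hx
    rw [Finset.mem_range] at *
    omega
  · intro x _ hx
    rw [Finset.mem_range] at hx
    rw [gam_eq_zero n x (by omega), C_0, zero_mul]

noncomputable def Op1 (n : ℚ) (f : ℚ[X]) : ℚ[X] :=
  2 * (1 - X) * (X * derivative f) + (1 + C (2 * n - 1) * X) * f

noncomputable def Op2 (n : ℚ) (f : ℚ[X]) : ℚ[X] :=
  2 * (1 - X) ^ 2 * (X * derivative (X * derivative f))
  + (C (4 * (n - 1)) * X * (1 - X) + 2 * (1 - X) ^ 2) * (X * derivative f)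
  + (C (4 * (n - 1)) * X * (1 - X) + C (2 * n * (n - 1)) * X ^ 2 + C (n - 1) * (1 - X) ^ 2) * f

theorem theta_e (i q : ℕ) : (X : ℚ[X]) * derivative (X ^ i * (1 + X) ^ q) =
    C (i : ℚ) * X ^ i * (1 + X) ^ q + C (q : ℚ) * X ^ (i + 1) * (1 + X) ^ (q - 1) := by
  rw [derivative_mul, derivative_X_pow, derivative_pow]
  simp only [derivative_add, derivative_one, derivative_X, zero_add, mul_one]
  rcases i with _ | i
  · simp; ring
  · simp
    ring

theorem op1_e (i q : ℕ) : Op1 ((q : ℚ) + 2 * i + 1) (X ^ i * (1 + X) ^ q) =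
    C (2 * (i : ℚ) + 1) * (X ^ i * (1 + X) ^ (q + 1))
    + C (4 * (q : ℚ)) * (X ^ (i + 1) * (1 + X) ^ (q - 1)) := by
  unfold Op1
  rw [theta_e]
  simp only [map_add, map_sub, map_mul, map_one, map_natCast, map_ofNat]
  rcases q with _ | q
  · simp
    ring
  · simp only [Nat.add_sub_cancel]
    push_cast
    ring

theorem op2_e (i q : ℕ) : Op2 ((q : ℚ) + 2 * i + 2) (X ^ i * (1 + X) ^ q) =
    C (2 * (i : ℚ) ^ 2 + 2 * i + q + 2 * i + 1) * (X ^ i * (1 + X) ^ (q + 2))
    + C (4 * ((2 * i + 1) * (q : ℚ) - i)) * (X ^ (i + 1) * (1 + X) ^ q)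
    + C (8 * (q : ℚ) * (q - 1)) * (X ^ (i + 2) * (1 + X) ^ (q - 2)) := by
  unfold Op2
  have h2 : X * derivative (X * derivative (X ^ i * (1 + X) ^ q)) =
      C (i : ℚ) * (X * derivative (X ^ i * (1 + X) ^ q)) +
      C (q : ℚ) * (X * derivative (X ^ (i + 1) * (1 + X) ^ (q - 1))) := by
    conv_lhs => rw [theta_e]
    simp only [derivative_add, mul_assoc, derivative_C_mul]
    ring
  rw [h2, theta_e, theta_e]
  simp only [map_add, map_sub, map_mul, map_one, map_natCast, map_ofNat, map_pow]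
  rcases q with _ | _ | q
  · simp
    ring
  · simp
    ring
  · have e1 : q + 1 + 1 - 1 = q + 1 := by omega
    have e2 : q + 1 - 1 = q := by omega
    have e3 : q + 1 + 1 - 2 = q := by omega
    have e4 : q + 1 + 1 - 1 - 1 = q := by omega
    simp only [e1, e2, e3]
    push_cast
    ring

theorem sum_shift1 (N : ℕ) (h : ℕ → ℚ[X]) (h0 : h N = 0) :
    ∑ i ∈ Finset.range (N + 1), (if 1 ≤ i then h (i - 1) else 0) =
      ∑ i ∈ Finset.range (N + 1), h i := by
  rw [Finset.sum_range_succ', Finset.sum_range_succ, h0]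
  simp

theorem sum_shift2 (N : ℕ) (h : ℕ → ℚ[X]) (h0 : h N = 0) (h1 : h (N + 1) = 0) :
    ∑ i ∈ Finset.range (N + 2), (if 2 ≤ i then h (i - 2) else 0) =
      ∑ i ∈ Finset.range (N + 2), h i := by
  rw [Finset.sum_range_succ', Finset.sum_range_succ', Finset.sum_range_succ _ (N + 1),
    Finset.sum_range_succ, h0, h1]
  simp

theorem op1_sum (n : ℚ) (s : Finset ℕ) (a : ℕ → ℚ) (f : ℕ → ℚ[X]) :
    Op1 n (∑ i ∈ s, C (a i) * f i) = ∑ i ∈ s, C (a i) * Op1 n (f i) := by
  unfold Op1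
  simp only [derivative_sum, derivative_C_mul, Finset.mul_sum, ← Finset.sum_add_distrib]
  apply Finset.sum_congr rfl
  intro i _
  ring

theorem op2_sum (n : ℚ) (s : Finset ℕ) (a : ℕ → ℚ) (f : ℕ → ℚ[X]) :
    Op2 n (∑ i ∈ s, C (a i) * f i) = ∑ i ∈ s, C (a i) * Op2 n (f i) := by
  unfold Op2
  simp only [derivative_sum, derivative_C_mul, Finset.mul_sum]
  have : ∀ i, derivative (X * (C (a i) * derivative (f i))) =
      C (a i) * derivative (X * derivative (f i)) := by
    intro i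
    rw [show X * (C (a i) * derivative (f i)) = C (a i) * (X * derivative (f i)) by ring,
      derivative_C_mul]
  simp only [this, ← Finset.sum_add_distrib]
  apply Finset.sum_congr rfl
  intro i _
  ring

theorem Q_rec (n : ℕ) :
    C ((n : ℚ) + 2) * Q (n + 2) = Op1 (n + 2) (Q (n + 1)) + Op2 (n + 2) (Q n) := by
  set A1 : ℕ → ℚ[X] := fun j => C ((2 * (j : ℚ) + 1) * gam (n + 1) j) * e (n + 2) j with hA1
  set B1 : ℕ → ℚ[X] := fun j => C (4 * ((n : ℚ) + 1 - 2 * j) * gam (n + 1) j) * e (n + 2) (j + 1)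
    with hB1
  set A2 : ℕ → ℚ[X] := fun j => C ((2 * (j : ℚ) ^ 2 + 2 * j + n + 1) * gam n j) * e (n + 2) j
    with hA2
  set B2 : ℕ → ℚ[X] := fun j => C (4 * ((2 * (j : ℚ) + 1) * (n - 2 * j) - j) * gam n j) *
    e (n + 2) (j + 1) with hB2
  set C2 : ℕ → ℚ[X] := fun j => C (8 * ((n : ℚ) - 2 * j) * (n - 2 * j - 1) * gam n j) *
    e (n + 2) (j + 2) with hC2
  have z1 : ∀ j, n + 1 < 2 * j → A1 j = 0 ∧ B1 j = 0 := by
    intro j hj
    rw [hA1, hB1]
    simp only [gam_eq_zero (n + 1) j hj, mul_zero, C_0, zero_mul, and_self]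
  have z2 : ∀ j, n < 2 * j → A2 j = 0 ∧ B2 j = 0 ∧ C2 j = 0 := by
    intro j hj
    rw [hA2, hB2, hC2]
    simp only [gam_eq_zero n j hj, mul_zero, C_0, zero_mul, and_self]
  have k1 : Op1 (n + 2) (Q (n + 1)) = ∑ j ∈ Finset.range (n + 3), (A1 j + B1 j) := by
    rw [Q_eq (n + 1) (n + 3) (by omega), op1_sum]
    apply Finset.sum_congr rfl
    intro j _
    rcases Nat.lt_or_ge (n + 1) (2 * j) with h | h
    · rw [(z1 j h).1, (z1 j h).2, gam_eq_zero _ _ h, C_0, zero_mul, add_zero]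
    · obtain ⟨q, hq⟩ : ∃ q, n + 1 = q + 2 * j := ⟨n + 1 - 2 * j, by omega⟩
      have hq' : (n : ℚ) + 1 = q + 2 * j := by exact_mod_cast hq
      have h3 : (n : ℚ) + 2 = q + 2 * j + 1 := by linarith
      have h4 : n + 1 - 2 * j = q := by omega
      have h5 : n + 2 - 2 * j = q + 1 := by omega
      have h6 : n + 2 - 2 * (j + 1) = q - 1 := by omega
      rw [hA1, hB1]
      simp only [e, h4, h5, h6, h3]
      rw [op1_e]
      have h7 : (n : ℚ) + 1 - 2 * j = q := by linarith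
      rw [h7]
      simp only [map_mul]
      ring
  have k2 : Op2 (n + 2) (Q n) = ∑ j ∈ Finset.range (n + 3), (A2 j + B2 j + C2 j) := by
    rw [Q_eq n (n + 3) (by omega), op2_sum]
    apply Finset.sum_congr rfl
    intro j _
    rcases Nat.lt_or_ge n (2 * j) with h | h
    · rw [(z2 j h).1, (z2 j h).2.1, (z2 j h).2.2, gam_eq_zero _ _ h, C_0, zero_mul, add_zero,
        add_zero]
    · obtain ⟨q, hq⟩ : ∃ q, n = q + 2 * j := ⟨n - 2 * j, by omega⟩
      have hq' : (n : ℚ) = q + 2 * j := by exact_mod_cast hq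
      have h3 : (n : ℚ) + 2 = q + 2 * j + 2 := by linarith
      have h4 : n - 2 * j = q := by omega
      have h5 : n + 2 - 2 * j = q + 2 := by omega
      have h6 : n + 2 - 2 * (j + 1) = q := by omega
      have h7 : n + 2 - 2 * (j + 2) = q - 2 := by omega
      rw [hA2, hB2, hC2]
      simp only [e, h4, h5, h6, h7, h3]
      rw [op2_e]
      have h8 : (n : ℚ) - 2 * j = q := by linarith
      rw [h8]
      have h9 : (2 * (j : ℚ) ^ 2 + 2 * j + n + 1) = 2 * (j : ℚ) ^ 2 + 2 * j + q + 2 * j + 1 := by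
        linarith
      rw [h9]
      simp only [map_mul]
      ring
  rw [k1, k2, Q_eq (n + 2) (n + 3) (by omega), Finset.mul_sum]
  have k3 : ∀ i ∈ Finset.range (n + 3), C ((n : ℚ) + 2) * (C (gam (n + 2) i) * e (n + 2) i) =
      A1 i + (if 1 ≤ i then B1 (i - 1) else 0) + A2 i + (if 1 ≤ i then B2 (i - 1) else 0)
      + (if 2 ≤ i then C2 (i - 2) else 0) := by
    intro i _
    rw [← mul_assoc, ← C_mul, gam_succ_succ, step]
    have hn : (n : ℚ) + 2 ≠ 0 := by positivity
    rw [mul_div_cancel₀ _ hn]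
    rw [hA1, hB1, hA2, hB2, hC2]
    rcases i with _ | _ | i
    · simp only [if_neg (by norm_num : ¬ (1 ≤ 0)), if_neg (by norm_num : ¬ (2 ≤ 0)), add_zero]
      rw [← add_mul, ← C_add]
      congr 2
      push_cast
      ring
    · simp only [if_pos (by norm_num : 1 ≤ 0 + 1), if_neg (by norm_num : ¬ (2 ≤ 0 + 1)), add_zero]
      simp only [Nat.add_sub_cancel]
      rw [← add_mul, ← C_add, ← add_mul, ← C_add, ← add_mul, ← C_add]
      congr 2
      push_cast
      ring
    · simp only [if_pos (by omega : 1 ≤ i + 1 + 1), if_pos (by omega : 2 ≤ i + 1 + 1)]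
      have e1 : i + 1 + 1 - 1 = i + 1 := by omega
      have e2 : i + 1 + 1 - 2 = i := by omega
      simp only [e1, e2]
      rw [← add_mul, ← C_add, ← add_mul, ← C_add, ← add_mul, ← C_add, ← add_mul, ← C_add]
      congr 2
      push_cast
      ring
  rw [Finset.sum_congr rfl k3]
  simp only [Finset.sum_add_distrib]
  rw [sum_shift1 (n + 2) B1 (z1 _ (by omega)).2, sum_shift1 (n + 2) B2 (z2 _ (by omega)).2.1,
    sum_shift2 (n + 1) C2 (z2 _ (by omega)).2.2 (z2 _ (by omega)).2.2]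
  ring

theorem Q_zero : Q 0 = 1 := by
  simp [Q, e, gam_zero]

theorem Q_one : Q 1 = 1 + X := by
  simp [Q, e, gam_one]

end Pool.Agent.J4.H46.InvB
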