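import Mathlib
import Pool.Agent.J4.H46.InvB.Poly

/-!
# The generating function of the polynomials `Q n`
-/

set_option autoImplicit false

namespace Pool.Agent.J4.H46.InvB

open PowerSeries

theorem deriv_one_sub : d⁄dX ℚ (1 - X : ℚ⟦X⟧) = -1 := by
  rw [map_sub, derivative_X, derivative_one]
  ring

theorem pow_deriv1 (k : ℕ) : (1 - X : ℚ⟦X⟧) * d⁄dX ℚ ((1 - X : ℚ⟦X⟧) ^ k) =
    -(k : ℚ⟦X⟧) * (1 - X) ^ k := by
  rw [derivative_pow]
  rcases k with _ | k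
  · simp
  · rw [deriv_one_sub]
    simp only [Nat.add_sub_cancel]
    ring

theorem pow_deriv2 (n : ℕ) : (1 - X : ℚ⟦X⟧) * d⁄dX ℚ (d⁄dX ℚ ((1 - X : ℚ⟦X⟧) ^ (n + 1))) =
    -(n : ℚ⟦X⟧) * d⁄dX ℚ ((1 - X : ℚ⟦X⟧) ^ (n + 1)) := by
  have h := congrArg (fun f => d⁄dX ℚ f) (pow_deriv1 (n + 1))
  simp only [Derivation.leibniz, smul_eq_mul, deriv_one_sub, map_neg] at h
  have h3 : d⁄dX ℚ ((n + 1 : ℕ) : ℚ⟦X⟧) = 0 := Derivation.map_natCast _ _
  rw [h3] at h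
  push_cast at h
  linear_combination h

/-- the generating function satisfies the recurrence -/
theorem mk_rec (c : ℕ → ℕ → ℚ)
    (hc : ∀ n r : ℕ, ((n : ℚ) + 2) * c (n + 2) r =
      (2 * r + 1) * c (n + 1) r + (2 * r ^ 2 + 2 * r + n + 1) * c n r) (n : ℕ) :
    ((n : ℚ⟦X⟧) + 2) * mk (c (n + 2)) =
      2 * (X * d⁄dX ℚ (mk (c (n + 1)))) + mk (c (n + 1))
      + 2 * (X * d⁄dX ℚ (X * d⁄dX ℚ (mk (c n)))) + 2 * (X * d⁄dX ℚ (mk (c n)))
      + ((n : ℚ⟦X⟧) + 1) * mk (c n) := by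
  have hX : ∀ (f : ℚ⟦X⟧) (r : ℕ), coeff r (X * d⁄dX ℚ f) = r * coeff r f := by
    intro f r
    rcases r with _ | r
    · simp
    · rw [coeff_succ_X_mul, coeff_derivative]
      push_cast
      ring
  have hC : ∀ (a : ℕ) (f : ℚ⟦X⟧) (r : ℕ), coeff r ((a : ℚ⟦X⟧) * f) = a * coeff r f := by
    intro a f r
    rw [show (a : ℚ⟦X⟧) = C (a : ℚ) by simp, coeff_C_mul]
  ext r
  have h2 : ((n : ℚ⟦X⟧) + 2) = ((n + 2 : ℕ) : ℚ⟦X⟧) := by push_cast; ring
  have h1 : ((n : ℚ⟦X⟧) + 1) = ((n + 1 : ℕ) : ℚ⟦X⟧) := by push_cast; ring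
  have h0 : (2 : ℚ⟦X⟧) = ((2 : ℕ) : ℚ⟦X⟧) := by push_cast; ring
  rw [h2, h1, h0]
  simp only [map_add, hC, hX, coeff_mk]
  push_cast
  have := hc n r
  linear_combination this

theorem Q_series (c : ℕ → ℕ → ℚ) (h0 : ∀ r, c 0 r = 1) (h1 : ∀ r : ℕ, c 1 r = 2 * r + 1)
    (hc : ∀ n r : ℕ, ((n : ℚ) + 2) * c (n + 2) r =
      (2 * r + 1) * c (n + 1) r + (2 * r ^ 2 + 2 * r + n + 1) * c n r) :
    ∀ n : ℕ, ((Q n : Polynomial ℚ) : ℚ⟦X⟧) = (1 - X) ^ (n + 1) * mk (c n)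
  | 0 => by
    rw [Q_zero]
    have : mk (c 0) = mk 1 := by
      ext r; simp [h0]
    rw [this]
    have h := mk_one_mul_one_sub_eq_one ℚ
    simp only [zero_add, pow_one, Polynomial.coe_one]
    rw [mul_comm]
    exact h.symm
  | 1 => by
    rw [Q_one]
    have h := mk_one_mul_one_sub_eq_one ℚ
    have hd : mk (c 1) = 2 * (X * d⁄dX ℚ (mk (1 : ℕ → ℚ))) + mk 1 := by
      ext r
      rw [show (2 : ℚ⟦X⟧) = C (2 : ℚ) from rfl, map_add, coeff_C_mul, coeff_mk, coeff_mk, h1]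
      rcases r with _ | r
      · simp
      · rw [coeff_succ_X_mul, coeff_derivative, coeff_mk]
        simp
    have h2 : d⁄dX ℚ (mk (1 : ℕ → ℚ)) * (1 - X) = mk 1 := by
      have := congrArg (fun f => d⁄dX ℚ f) h
      simp only [Derivation.leibniz, smul_eq_mul] at this
      rw [deriv_one_sub, derivative_one] at this
      linear_combination this
    rw [hd]
    simp only [Polynomial.coe_add, Polynomial.coe_one, Polynomial.coe_X]
    linear_combination (-(2 * X) * (1 - X)) * h2 + (-(2 * X) - (1 - X)) * h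
  | (n + 2) => by
    have ih1 := Q_series c h0 h1 hc (n + 1)
    have ih2 := Q_series c h0 h1 hc n
    have hr := mk_rec c hc n
    have hq := congrArg (fun f : Polynomial ℚ => (f : ℚ⟦X⟧)) (Q_rec n)
    simp only [Op1, Op2, Polynomial.coe_add, Polynomial.coe_mul, Polynomial.coe_C,
      Polynomial.coe_sub, Polynomial.coe_one, Polynomial.coe_X, Polynomial.coe_pow,
      ← derivative_coe, ih1, ih2] at hq
    have hn : ((n : ℚ⟦X⟧) + 2) ≠ 0 := by
      have : ((n : ℚ⟦X⟧) + 2) = C ((n : ℚ) + 2) := by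
        rw [map_add, map_natCast]; rfl
      rw [this]
      intro hz
      have : ((n : ℚ) + 2) = 0 := by
        have := congrArg (fun f => coeff 0 f) hz
        simpa using this
      have : (0 : ℚ) < n + 2 := by positivity
      linarith
    apply mul_left_cancel₀ hn
    have g2 := pow_deriv1 (n + 1)
    have g3 := pow_deriv2 n
    have c2 : ((2 : Polynomial ℚ) : ℚ⟦X⟧) = 2 := by
      have h : (2 : Polynomial ℚ) = 1 + 1 := by norm_num
      rw [h, Polynomial.coe_add, Polynomial.coe_one]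
      norm_num
    have cc1 : (C ((n : ℚ) + 2) : ℚ⟦X⟧) = n + 2 := by
      rw [map_add, map_natCast]; rfl
    have cc2 : (C (2 * ((n : ℚ) + 2) - 1) : ℚ⟦X⟧) = 2 * (n + 2) - 1 := by
      rw [map_sub, map_mul, cc1, map_one]; rfl
    have cc3 : (C (4 * ((n : ℚ) + 2 - 1)) : ℚ⟦X⟧) = 4 * (n + 2 - 1) := by
      rw [map_mul, map_sub, cc1, map_one]; rfl
    have cc4 : (C (2 * ((n : ℚ) + 2) * ((n : ℚ) + 2 - 1)) : ℚ⟦X⟧) =
        2 * (n + 2) * (n + 2 - 1) := by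
      rw [map_mul, map_mul, map_sub, cc1, map_one]; rfl
    have cc5 : (C ((n : ℚ) + 2 - 1) : ℚ⟦X⟧) = n + 2 - 1 := by
      rw [map_sub, cc1, map_one]
    rw [cc1, cc2, cc3, cc4, cc5, c2] at hq
    have p1 : (1 - X : ℚ⟦X⟧) ^ (n + 1 + 1) = (1 - X) * (1 - X) ^ (n + 1) := by ring
    have p2 : (1 - X : ℚ⟦X⟧) ^ (n + 2 + 1) = (1 - X) ^ 2 * (1 - X) ^ (n + 1) := by ring
    rw [p1] at hq
    rw [p2]
    push_cast at g2
    generalize (1 - X : ℚ⟦X⟧) ^ (n + 1) = G at *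
    generalize mk (c (n + 1)) = F1 at *
    generalize mk (c n) = F0 at *
    generalize mk (c (n + 2)) = F2 at *
    simp only [Derivation.leibniz, smul_eq_mul, derivative_X, map_add, deriv_one_sub] at hq hr
    linear_combination hq - (1 - X) ^ 2 * G * hr
      + (2 * X * (1 - X) * F1 + 4 * (1 - X) * X ^ 2 * d⁄dX ℚ F0 + 4 * (1 - X) * X * F0
        + 2 * (n + 2) * X ^ 2 * F0) * g2 + 2 * X ^ 2 * (1 - X) * F0 * g3

end Pool.Agent.J4.H46.InvB
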