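import Mathlib
import Pool.Agent.J4.H46.InvB.Comp
import Pool.Agent.J4.H46.InvB.Series
import Pool.Agent.J4.H46.InvB.Cnt

/-!
# The descent polynomial on involutions of type B
-/

set_option autoImplicit false

namespace Pool.Agent.J4.H46.InvB

open Finset

open Classical in
/-- the descent polynomial -/
noncomputable def Pn (n : ℕ) : Polynomial ℤ :=
  ∑ w ∈ univ.filter (fun w : Wn n => IsInv w), Polynomial.X ^ (des w)

theorem map_Pn (n : ℕ) : (Pn n).map (Int.castRingHom ℚ) = Q n := by
  classical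
  have hinj : Function.Injective ((↑) : Polynomial ℚ → PowerSeries ℚ) := Polynomial.coe_injective ℚ
  apply hinj
  have h0 : ∀ r : ℕ, (fun n r => (cnt (2 * r + 1) (r ^ 2) n : ℚ)) 0 r = 1 := by
    intro r
    simp [cnt_zero]
  have h1 : ∀ r : ℕ, (fun n r => (cnt (2 * r + 1) (r ^ 2) n : ℚ)) 1 r = 2 * r + 1 := by
    intro r
    simp [cnt_one]
  rw [Q_series (fun n r => (cnt (2 * r + 1) (r ^ 2) n : ℚ)) h0 h1 (by
    intro n r
    have := cnt_rec (2 * r + 1) (r ^ 2) n
    push_cast at this ⊢
    rw [this]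
    ring)]
  have h2 : (PowerSeries.mk (fun r => (cnt (2 * r + 1) (r ^ 2) n : ℚ))) =
      ∑ w ∈ univ.filter (fun w : Wn n => IsInv w),
        PowerSeries.X ^ (des w) * PowerSeries.mk (fun r => (Nat.choose (n + r) n : ℚ)) := by
    ext r
    rw [PowerSeries.coeff_mk, ← card_T, sum_compat, map_sum]
    push_cast
    apply sum_congr rfl
    intro w _
    rw [PowerSeries.coeff_X_pow_mul']
    split_ifs with h
    · rw [PowerSeries.coeff_mk]
    · rfl
  show _ = (1 - PowerSeries.X : PowerSeries ℚ) ^ (n + 1) *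
    PowerSeries.mk (fun r => (cnt (2 * r + 1) (r ^ 2) n : ℚ))
  rw [h2, mul_sum]
  have h3 : (PowerSeries.mk (fun r => (Nat.choose (n + r) n : ℚ))) *
    ((1 - PowerSeries.X : PowerSeries ℚ) ^ (n + 1)) = 1 :=
    PowerSeries.mk_add_choose_mul_one_sub_pow_eq_one ℚ n
  unfold Pn
  rw [Polynomial.map_sum]
  have h4 : ∀ (s : Finset (Wn n)) (f : Wn n → Polynomial ℚ),
      ((∑ w ∈ s, f w : Polynomial ℚ) : PowerSeries ℚ) = ∑ w ∈ s, (f w : PowerSeries ℚ) := by
    intro s f
    exact map_sum (Polynomial.coeToPowerSeries.ringHom (R := ℚ)) f s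
  rw [h4]
  apply sum_congr rfl
  intro w _
  rw [Polynomial.map_pow, Polynomial.map_X, Polynomial.coe_pow, Polynomial.coe_X]
  calc (PowerSeries.X : PowerSeries ℚ) ^ des w = PowerSeries.X ^ des w * 1 := by rw [mul_one]
    _ = PowerSeries.X ^ des w * ((PowerSeries.mk (fun r => (Nat.choose (n + r) n : ℚ))) *
        ((1 - PowerSeries.X : PowerSeries ℚ) ^ (n + 1))) := by rw [h3]
    _ = _ := by ring

/-- coefficient of `e n i` -/
theorem coeff_e (n i k : ℕ) : (e n i).coeff k = if i ≤ k then ((n - 2 * i).choose (k - i) : ℚ)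
    else 0 := by
  unfold e
  rw [Polynomial.coeff_X_pow_mul', Polynomial.coeff_one_add_X_pow]

/-- integrality -/
theorem gam_int (n : ℕ) : ∀ i : ℕ, ∃ z : ℤ, gam n i = z := by
  intro i
  induction i using Nat.strong_induction_on with
  | _ i ih =>
    by_cases h : n < 2 * i
    · exact ⟨0, by rw [gam_eq_zero n i h, Int.cast_zero]⟩
    · have h1 := congrArg (fun p => Polynomial.coeff p i) (map_Pn n)
      simp only [Polynomial.coeff_map, Q, Polynomial.finsetSum_coeff, Polynomial.coeff_C_mul,
        coeff_e, eq_intCast] at h1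
      have hmem : i ∈ range (n / 2 + 1) := by rw [mem_range]; omega
      rw [← add_sum_erase _ _ hmem, if_pos le_rfl, Nat.sub_self, Nat.choose_zero_right,
        Nat.cast_one, mul_one] at h1
      have h2 : ∃ z : ℤ, ∑ x ∈ (range (n / 2 + 1)).erase i,
          gam n x * (if x ≤ i then ((n - 2 * x).choose (i - x) : ℚ) else 0) = z := by
        choose! g hg using ih
        refine ⟨∑ x ∈ (range (n / 2 + 1)).erase i,
          g x * (if x ≤ i then ((n - 2 * x).choose (i - x) : ℤ) else 0), ?_⟩
        rw [Int.cast_sum]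
        apply sum_congr rfl
        intro x hx
        rw [mem_erase] at hx
        rw [Int.cast_mul]
        split_ifs with h3
        · rw [hg x (lt_of_le_of_ne h3 hx.1), Int.cast_natCast]
        · simp
      obtain ⟨z, hz⟩ := h2
      rw [hz] at h1
      refine ⟨(Pn n).coeff i - z, ?_⟩
      rw [Int.cast_sub, h1]
      ring

theorem Pn_gamma (n : ℕ) : ∃ γ : ℕ → ℕ, Pn n = ∑ i ∈ range (n / 2 + 1),
    Polynomial.C (γ i : ℤ) * Polynomial.X ^ i * (1 + Polynomial.X) ^ (n - 2 * i) := by
  have h : ∀ i, ∃ m : ℕ, gam n i = m := by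
    intro i
    obtain ⟨z, hz⟩ := gam_int n i
    have h0 := gam_nonneg n i
    rw [hz] at h0
    have h1 : 0 ≤ z := by exact_mod_cast h0
    refine ⟨z.toNat, ?_⟩
    rw [hz]
    have : (z.toNat : ℤ) = z := Int.toNat_of_nonneg h1
    exact_mod_cast this.symm
  choose γ hγ using h
  refine ⟨γ, ?_⟩
  apply Polynomial.map_injective (Int.castRingHom ℚ) Int.cast_injective
  rw [map_Pn, Polynomial.map_sum, Q]
  apply sum_congr rfl
  intro i _
  rw [hγ i, e, Polynomial.map_mul, Polynomial.map_mul, Polynomial.map_pow, Polynomial.map_pow,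
    Polynomial.map_add, Polynomial.map_C, Polynomial.map_X, Polynomial.map_one, mul_assoc]
  simp

/-- the number of descents, as in the statement of the problem -/
theorem des_eq {n : ℕ} (w : Wn n) : des w =
    (univ.filter (fun j : Fin n => j.val = 0 ∧ w.2 j = true)).card +
      (univ.filter (fun p : Fin n × Fin n => p.2.val = p.1.val + 1 ∧
        (if w.2 p.2 then (-1 : ℤ) else 1) * (((w.1 p.2 : ℕ) : ℤ) + 1) <
        (if w.2 p.1 then (-1 : ℤ) else 1) * (((w.1 p.1 : ℕ) : ℤ) + 1))).card := by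
  classical
  have h : des w = ((univ.filter (fun j : Fin n => j.val = 0 ∧ w.2 j = true)) ∪
      (univ.filter (fun j : Fin n => ∃ i : Fin n, j.val = i.val + 1 ∧ sv w j < sv w i))).card := by
    unfold des
    congr 1
    ext k
    rw [mem_filter, mem_union, mem_filter, mem_filter]
    simp only [mem_univ, true_and]
    exact Iff.rfl
  rw [h, card_union_of_disjoint]
  · congr 1
    symm
    apply card_nbij (fun p => p.2)
    · intro p hp
      rw [mem_coe, mem_filter] at hp
      rw [mem_coe, mem_filter]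
      exact ⟨mem_univ _, p.1, hp.2.1, hp.2.2⟩
    · intro p hp q hq h
      rw [mem_coe, mem_filter] at hp hq
      apply Prod.ext _ h
      apply Fin.ext
      have h1 := hp.2.1
      have h2 := hq.2.1
      simp only at h
      rw [h] at h1
      omega
    · intro j hj
      rw [mem_coe, mem_filter] at hj
      obtain ⟨_, i, h1, h2⟩ := hj
      refine ⟨(i, j), ?_, rfl⟩
      rw [mem_coe, mem_filter]
      exact ⟨mem_univ _, h1, h2⟩
  · rw [disjoint_filter]
    rintro j _ ⟨h1, _⟩ ⟨i, h2, _⟩
    omega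

end Pool.Agent.J4.H46.InvB
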